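import Mathlib

/-!
Exposed point lemma: a continuous map of a compact space has, for every continuous
vector valued observable, an orbit with almost linear Birkhoff sums.
-/

open Filter Topology Set

namespace Pool.Agent.H44.Sing

variable {X : Type*} [TopologicalSpace X] [CompactSpace X] [Nonempty X]
variable {E : Type*} [NormedAddCommGroup E] [InnerProductSpace ℝ E]

theorem continuous_birkhoffSum' {T : X → X} (hT : Continuous T) {f : X → E} (hf : Continuous f)
    (k : ℕ) : Continuous (birkhoffSum T f k) := by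
  unfold birkhoffSum
  exact continuous_finsetSum _ fun i _ => hf.comp (hT.iterate i)

/-- The maximal norm of the Birkhoff sums. -/
noncomputable def maxNorm (T : X → X) (f : X → E) (k : ℕ) : ℝ :=
  ⨆ x, ‖birkhoffSum T f k x‖

theorem bddAbove_norm {T : X → X} (hT : Continuous T) {f : X → E} (hf : Continuous f)
    (k : ℕ) : BddAbove (range fun x => ‖birkhoffSum T f k x‖) :=
  (isCompact_range (continuous_birkhoffSum' hT hf k).norm).bddAbove

theorem norm_le_maxNorm {T : X → X} (hT : Continuous T) {f : X → E} (hf : Continuous f)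
    (k : ℕ) (x : X) : ‖birkhoffSum T f k x‖ ≤ maxNorm T f k :=
  le_ciSup (bddAbove_norm hT hf k) x

theorem exists_maxNorm {T : X → X} (hT : Continuous T) {f : X → E} (hf : Continuous f)
    (k : ℕ) : ∃ x, ‖birkhoffSum T f k x‖ = maxNorm T f k := by
  obtain ⟨x, -, hx⟩ := isCompact_univ.exists_sSup_image_eq univ_nonempty
    (continuous_birkhoffSum' hT hf k).norm.continuousOn
  exact ⟨x, by rw [← hx, image_univ]; rfl⟩

theorem maxNorm_nonneg (T : X → X) (f : X → E) (k : ℕ) : 0 ≤ maxNorm T f k :=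
  Real.iSup_nonneg fun _ => norm_nonneg _

theorem subadditive_maxNorm {T : X → X} (hT : Continuous T) {f : X → E} (hf : Continuous f) :
    Subadditive (maxNorm T f) := by
  intro a b
  refine ciSup_le fun x => ?_
  rw [birkhoffSum_add]
  exact (norm_add_le _ _).trans
    (add_le_add (norm_le_maxNorm hT hf a x) (norm_le_maxNorm hT hf b _))

theorem bddBelow_maxNorm (T : X → X) (f : X → E) :
    BddBelow (range fun n : ℕ => maxNorm T f n / n) :=
  ⟨0, by rintro _ ⟨n, rfl⟩; exact div_nonneg (maxNorm_nonneg T f n) n.cast_nonneg⟩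

open scoped RealInnerProductSpace

theorem exists_start {T : X → X} (hT : Continuous T) {f : X → E} (hf : Continuous f)
    {M : ℝ} (hM : ∀ k : ℕ, k * M ≤ maxNorm T f k) {δ : ℝ} (hδ : 0 < δ) (L : ℕ) :
    ∃ x : X, ∃ e : E, ‖e‖ ≤ 1 ∧ ∀ k ≤ L, (k : ℝ) * (M - δ) ≤ ⟪birkhoffSum T f k x, e⟫ := by
  obtain ⟨C, hC⟩ : ∃ C : ℝ, ∀ x, ‖f x‖ ≤ C := by
    obtain ⟨C, hC⟩ := (isCompact_range hf.norm).bddAbove
    exact ⟨C, fun x => hC ⟨x, rfl⟩⟩
  have hC0 : 0 ≤ C := (norm_nonneg _).trans (hC (Classical.arbitrary X))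
  set D : ℝ := C + |M - δ| + 1 with hD
  have hDpos : 0 < D := by positivity
  obtain ⟨L', hL'⟩ := exists_nat_ge (D * L / δ)
  have hL'1 : D * L ≤ δ * L' := by
    rw [div_le_iff₀ hδ] at hL'; linarith
  obtain ⟨x', hx'⟩ := exists_maxNorm hT hf L'
  set S := birkhoffSum T f L' x' with hS
  set e : E := ‖S‖⁻¹ • S with he
  have he1 : ‖e‖ ≤ 1 := by
    rw [he, norm_smul, norm_inv, norm_norm]
    exact inv_mul_le_one
  have hSe : ⟪S, e⟫ = ‖S‖ := by
    rw [he, inner_smul_right, real_inner_self_eq_norm_sq]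
    by_cases h0 : ‖S‖ = 0
    · simp [h0]
    · field_simp
  set φ : ℕ → ℝ := fun j => ⟪birkhoffSum T f j x', e⟫ - j * (M - δ) with hφ
  obtain ⟨j, hj, hjmin⟩ := Finset.exists_min_image (Finset.range (L' + 1)) φ ⟨0, by simp⟩
  have hjL : j ≤ L' := by
    have := Finset.mem_range.mp hj; omega
  have hφ0 : φ j ≤ 0 := by
    have := hjmin 0 (by simp)
    simpa [hφ, birkhoffSum_zero] using this
  have hφL : δ * L' ≤ φ L' := by
    have h1 := hM L'
    have h2 : φ L' = ‖S‖ - L' * (M - δ) := by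
      simp only [hφ]; rw [← hS, hSe]
    rw [h2, hx']
    nlinarith
  have hsub : ∀ a b : ℕ, ⟪birkhoffSum T f (a + b) x', e⟫ - ⟪birkhoffSum T f a x', e⟫ =
      ⟪birkhoffSum T f b (T^[a] x'), e⟫ := by
    intro a b
    rw [birkhoffSum_add, inner_add_left]; ring
  have hbound : ∀ (b : ℕ) (y : X), ⟪birkhoffSum T f b y, e⟫ ≤ b * C := by
    intro b y
    have h1 : ‖birkhoffSum T f b y‖ ≤ b * C := by
      unfold birkhoffSum
      refine (norm_sum_le _ _).trans ?_
      refine (Finset.sum_le_sum fun i _ => hC _).trans ?_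
      simp
    refine (real_inner_le_norm _ _).trans ?_
    refine (mul_le_mul h1 he1 (norm_nonneg _) (by positivity)).trans ?_
    simp
  have hLj : L ≤ L' - j := by
    obtain ⟨b, rfl⟩ := Nat.exists_eq_add_of_le hjL
    have h1 : φ (j + b) - φ j = ⟪birkhoffSum T f b (T^[j] x'), e⟫ - b * (M - δ) := by
      simp only [hφ]; rw [← hsub]; push_cast; ring
    have h2 := hbound b (T^[j] x')
    have h3 : -(b * (M - δ)) ≤ b * |M - δ| := by
      rw [← mul_neg]
      exact mul_le_mul_of_nonneg_left (neg_le_abs _) (Nat.cast_nonneg _)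
    have h4 : D * L ≤ b * D := by
      have : φ (j + b) - φ j ≤ b * D - b := by
        rw [h1, hD]; nlinarith
      have hb : (0 : ℝ) ≤ b := Nat.cast_nonneg _
      linarith
    have h5 : (L : ℝ) ≤ b := by
      by_contra h
      push Not at h
      nlinarith
    have h6 : L ≤ b := by exact_mod_cast h5
    omega
  refine ⟨T^[j] x', e, he1, fun k hk => ?_⟩
  have h1 := hjmin (j + k) (by rw [Finset.mem_range]; omega)
  have h2 := hsub j k
  simp only [hφ] at h1
  push_cast at h1
  linarith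

variable [FiniteDimensional ℝ E]

/-- **Exposed point lemma.** -/
theorem exists_regular_orbit [T2Space X] {T : X → X} (hT : Continuous T) {f : X → E}
    (hf : Continuous f) {ε : ℝ} (hε : 0 < ε) :
    ∃ x : X, ∃ v : E, ∀ᶠ k : ℕ in atTop, ‖birkhoffSum T f k x - (k : ℝ) • v‖ ≤ ε * k := by
  have hsub := subadditive_maxNorm hT hf
  have hbdd := bddBelow_maxNorm T f
  set M := hsub.lim with hMdef
  have hlim := hsub.tendsto_lim hbdd
  have hM0 : 0 ≤ M := by
    refine ge_of_tendsto' hlim fun n => ?_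
    exact div_nonneg (maxNorm_nonneg T f n) n.cast_nonneg
  have hM : ∀ k : ℕ, k * M ≤ maxNorm T f k := by
    intro k
    rcases Nat.eq_zero_or_pos k with rfl | hk
    · simpa using maxNorm_nonneg T f 0
    · have := hsub.lim_le_div hbdd hk.ne'
      rw [le_div_iff₀ (by exact_mod_cast hk)] at this
      linarith
  set δ : ℝ := min 1 (ε ^ 2 / (4 * M + 1)) with hδdef
  have hδ : 0 < δ := lt_min one_pos (by positivity)
  have hδε : 4 * M * δ + δ ^ 2 ≤ ε ^ 2 := by
    have h1 : δ ≤ 1 := min_le_left _ _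
    have h2 : δ ≤ ε ^ 2 / (4 * M + 1) := min_le_right _ _
    rw [le_div_iff₀ (by positivity)] at h2
    nlinarith
  -- compactness
  obtain ⟨⟨x, e⟩, hxe⟩ : (⋂ L : ℕ, {p : X × E | ‖p.2‖ ≤ 1 ∧
      ∀ k ≤ L, (k : ℝ) * (M - δ) ≤ ⟪birkhoffSum T f k p.1, p.2⟫}).Nonempty := by
    have hclosed : ∀ L : ℕ, IsClosed {p : X × E | ‖p.2‖ ≤ 1 ∧
        ∀ k ≤ L, (k : ℝ) * (M - δ) ≤ ⟪birkhoffSum T f k p.1, p.2⟫} := by
      intro L
      refine IsClosed.and (isClosed_le continuous_snd.norm continuous_const) ?_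
      simp only [Set.ofPred_forall]
      refine isClosed_iInter fun k => isClosed_iInter fun _ => ?_
      exact isClosed_le continuous_const
        (((continuous_birkhoffSum' hT hf k).comp continuous_fst).inner continuous_snd)
    apply IsCompact.nonempty_iInter_of_sequence_nonempty_isCompact_isClosed
    · intro L p hp
      exact ⟨hp.1, fun k hk => hp.2 k (by omega)⟩
    · intro L
      obtain ⟨x, e, he, h⟩ := exists_start hT hf hM hδ L
      exact ⟨(x, e), he, h⟩
    · refine (isCompact_univ.prod (isCompact_closedBall (0 : E) 1)).of_isClosed_subset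
        (hclosed 0) ?_
      intro p hp
      exact ⟨mem_univ _, by simpa using hp.1⟩
    · exact hclosed
  have he : ‖e‖ ≤ 1 := by
    have := mem_iInter.mp hxe 0
    exact this.1
  have hlow : ∀ k : ℕ, (k : ℝ) * (M - δ) ≤ ⟪birkhoffSum T f k x, e⟫ := fun k =>
    (mem_iInter.mp hxe k).2 k le_rfl
  refine ⟨x, M • e, ?_⟩
  have hup : ∀ᶠ k : ℕ in atTop, maxNorm T f k ≤ k * (M + δ) := by
    have h1 : ∀ᶠ k : ℕ in atTop, maxNorm T f k / k < M + δ :=
      (tendsto_order.1 hlim).2 _ (by linarith)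
    filter_upwards [h1, eventually_gt_atTop 0] with k hk hk0
    have : (0 : ℝ) < k := by exact_mod_cast hk0
    rw [div_lt_iff₀ this] at hk
    linarith
  filter_upwards [hup] with k hk
  have h1 : ‖birkhoffSum T f k x‖ ≤ k * (M + δ) := (norm_le_maxNorm hT hf k x).trans hk
  have h2 := hlow k
  have hk0 : (0 : ℝ) ≤ k := Nat.cast_nonneg _
  have h3 : ‖birkhoffSum T f k x - (k : ℝ) • M • e‖ ^ 2 ≤ (ε * k) ^ 2 := by
    rw [norm_sub_sq_real, inner_smul_right, inner_smul_right, norm_smul, norm_smul,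
      Real.norm_of_nonneg hk0, Real.norm_of_nonneg hM0]
    have h4 : ‖birkhoffSum T f k x‖ ^ 2 ≤ (k * (M + δ)) ^ 2 :=
      pow_le_pow_left₀ (norm_nonneg _) h1 2
    have h5 : (k * (M * ‖e‖)) ^ 2 ≤ (k * M) ^ 2 := by
      apply pow_le_pow_left₀ (by positivity)
      exact mul_le_mul_of_nonneg_left (mul_le_of_le_one_right hM0 he) hk0
    have h6 : (k * M) * (k * (M - δ)) ≤ (k * M) * ⟪birkhoffSum T f k x, e⟫ :=
      mul_le_mul_of_nonneg_left h2 (by positivity)
    have h7 : (k : ℝ) ^ 2 * (4 * M * δ + δ ^ 2) ≤ (k : ℝ) ^ 2 * ε ^ 2 :=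
      mul_le_mul_of_nonneg_left hδε (by positivity)
    nlinarith
  exact (sq_le_sq₀ (norm_nonneg _) (by positivity)).mp h3

end Pool.Agent.H44.Sing
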