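import Mathlib

/-!
Dieudonne's theorem on large linear spaces of singular complex matrices.
-/

open Matrix Module Submodule

namespace Pool.Agent.H44.Sing

section blocks

variable {α β : Type*} [Fintype α] [DecidableEq α] [Fintype β] [DecidableEq β] [Unique β]

/-- determinant of a bordered matrix with invertible corner -/
theorem det_bordered (M : Matrix α α ℂ) (hM : M.det ≠ 0) (B : Matrix α β ℂ) (C : Matrix β α ℂ)
    (D : Matrix β β ℂ) :
    (fromBlocks M B C D).det = M.det * D default default -
      (C * M.adjugate * B) default default := by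
  have hu : IsUnit M.det := isUnit_iff_ne_zero.mpr hM
  let _ : Invertible M := M.invertibleOfIsUnitDet hu
  rw [det_fromBlocks₁₁, det_unique (D - C * ⅟M * B), invOf_eq_nonsing_inv, Matrix.inv_def]
  simp only [Matrix.sub_apply, Matrix.mul_smul, Matrix.smul_mul, Matrix.smul_apply, smul_eq_mul,
    Ring.inverse_eq_inv']
  field_simp

/-- first and second order conditions at the standard corank one matrix -/
theorem second_order (A : Matrix α α ℂ) (B : Matrix α β ℂ) (C : Matrix β α ℂ)
    (D : Matrix β β ℂ)
    (h : ∀ s : ℂ, (fromBlocks (1 + s • A) (s • B) (s • C) (s • D)).det = 0) :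
    D default default = 0 ∧ (C * B) default default = 0 := by
  have hcd : Continuous fun s : ℂ => (1 + s • A : Matrix α α ℂ).det :=
    (continuous_const.add (continuous_id.smul continuous_const)).matrix_det
  have hca : Continuous fun s : ℂ => (C * (1 + s • A : Matrix α α ℂ).adjugate * B)
      default default := by
    have h1 : Continuous fun s : ℂ => (C * (1 + s • A : Matrix α α ℂ).adjugate * B) :=
      (continuous_const.matrix_mul
        (continuous_const.add (continuous_id.smul continuous_const)).matrix_adjugate).matrix_mul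
        continuous_const
    exact h1.matrix_elem default default
  have hne : ∀ᶠ s : ℂ in nhds 0, (1 + s • A : Matrix α α ℂ).det ≠ 0 := by
    have : (fun s : ℂ => (1 + s • A : Matrix α α ℂ).det) 0 ≠ 0 := by simp
    exact hcd.continuousAt.eventually_ne this
  have hrel : ∀ᶠ s : ℂ in nhdsWithin 0 {0}ᶜ,
      (1 + s • A : Matrix α α ℂ).det * D default default =
        s * (C * (1 + s • A : Matrix α α ℂ).adjugate * B) default default := by
    filter_upwards [hne.filter_mono nhdsWithin_le_nhds, self_mem_nhdsWithin] with s hs hs0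
    have h1 := h s
    rw [det_bordered _ hs] at h1
    simp only [Matrix.smul_apply, smul_eq_mul, Matrix.smul_mul, Matrix.mul_smul] at h1
    have hs0' : s ≠ 0 := hs0
    have h2 : s * ((1 + s • A : Matrix α α ℂ).det * D default default -
        s * (C * (1 + s • A : Matrix α α ℂ).adjugate * B) default default) = 0 := by
      linear_combination h1
    have h3 := (mul_eq_zero.mp h2).resolve_left hs0'
    linear_combination h3
  have hD : D default default = 0 := by
    have t1 : Filter.Tendsto (fun s : ℂ => (1 + s • A : Matrix α α ℂ).det * D default default)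
        (nhdsWithin 0 {0}ᶜ) (nhds (D default default)) := by
      have : Filter.Tendsto (fun s : ℂ => (1 + s • A : Matrix α α ℂ).det * D default default)
        (nhds 0) (nhds ((1 + (0 : ℂ) • A : Matrix α α ℂ).det * D default default)) :=
        (hcd.mul continuous_const).tendsto 0
      simp only [zero_smul, add_zero, det_one, one_mul] at this
      exact this.mono_left nhdsWithin_le_nhds
    have t2 : Filter.Tendsto (fun s : ℂ => s * (C * (1 + s • A : Matrix α α ℂ).adjugate * B)
        default default) (nhdsWithin 0 {0}ᶜ) (nhds 0) := by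
      have h0 : Filter.Tendsto (fun s : ℂ => s * (C * (1 + s • A : Matrix α α ℂ).adjugate * B)
        default default) (nhds 0)
        (nhds (0 * (C * (1 + (0 : ℂ) • A : Matrix α α ℂ).adjugate * B) default default)) :=
        (continuous_id.mul hca).tendsto (0 : ℂ)
      rw [zero_mul] at h0
      exact h0.mono_left nhdsWithin_le_nhds
    have t3 := t2.congr' (hrel.mono fun s hs => hs.symm)
    exact tendsto_nhds_unique t1 t3
  refine ⟨hD, ?_⟩
  have t1 : Filter.Tendsto (fun s : ℂ => (C * (1 + s • A : Matrix α α ℂ).adjugate * B)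
        default default) (nhdsWithin 0 {0}ᶜ) (nhds ((C * B) default default)) := by
    have := hca.tendsto (0 : ℂ)
    simp only [zero_smul, add_zero, adjugate_one, Matrix.mul_one] at this
    exact this.mono_left nhdsWithin_le_nhds
  have t2 : Filter.Tendsto (fun s : ℂ => (C * (1 + s • A : Matrix α α ℂ).adjugate * B)
        default default) (nhdsWithin 0 {0}ᶜ) (nhds 0) := by
    refine Filter.Tendsto.congr' ?_ tendsto_const_nhds
    filter_upwards [hrel, self_mem_nhdsWithin] with s hs hs0
    rw [hD, mul_zero] at hs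
    exact ((mul_eq_zero.mp hs.symm).resolve_left hs0).symm
  exact tendsto_nhds_unique t1 t2

/-- isotropic subspaces for the hyperbolic form have dimension at most half -/
theorem finrank_isotropic (L : Submodule ℂ ((α → ℂ) × (α → ℂ)))
    (hL : ∀ p ∈ L, p.1 ⬝ᵥ p.2 = 0) : finrank ℂ L ≤ Fintype.card α := by
  have hpol : ∀ p ∈ L, ∀ q ∈ L, p.1 ⬝ᵥ q.2 + q.1 ⬝ᵥ p.2 = 0 := by
    intro p hp q hq
    have h1 := hL (p + q) (L.add_mem hp hq)
    have h2 := hL p hp
    have h3 := hL q hq
    simp only [Prod.fst_add, Prod.snd_add, add_dotProduct, dotProduct_add] at h1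
    linear_combination h1 - h2 - h3
  set π : L →ₗ[ℂ] (α → ℂ) := (LinearMap.snd ℂ (α → ℂ) (α → ℂ)).comp L.subtype with hπ
  have hrn := LinearMap.finrank_range_add_finrank_ker π
  set R := LinearMap.range π with hR
  -- the kernel embeds in the annihilator of the range
  have hker : finrank ℂ (LinearMap.ker π) ≤ finrank ℂ (dualAnnihilator R) := by
    set Θ : LinearMap.ker π →ₗ[ℂ] Dual ℂ (α → ℂ) :=
      (dotProductEquiv ℂ α).toLinearMap.comp
        ((LinearMap.fst ℂ (α → ℂ) (α → ℂ)).comp (L.subtype.comp (LinearMap.ker π).subtype))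
      with hΘ
    have hmem : ∀ k, Θ k ∈ dualAnnihilator R := by
      intro k
      rw [mem_dualAnnihilator]
      rintro _ ⟨l, rfl⟩
      have hk : π k = 0 := k.2
      have hk2 : (k.1.1).2 = 0 := hk
      have h := hpol k.1.1 k.1.2 l.1 l.2
      rw [hk2, dotProduct_zero, add_zero] at h
      exact h
    have hinj : Function.Injective (Θ.codRestrict (dualAnnihilator R) hmem) := by
      intro k k' h
      have h1 : Θ k = Θ k' := congrArg Subtype.val h
      have h2 : (k.1.1).1 = (k'.1.1).1 := (dotProductEquiv ℂ α).injective h1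
      have hk : (k.1.1).2 = 0 := k.2
      have hk' : (k'.1.1).2 = 0 := k'.2
      exact Subtype.ext (Subtype.ext (Prod.ext h2 (hk.trans hk'.symm)))
    exact LinearMap.finrank_le_finrank_of_injective hinj
  have hann := Subspace.finrank_add_finrank_dualAnnihilator_eq R
  rw [finrank_fintype_fun_eq_card] at hann
  omega

/-- if a bordered matrix with zero corner entry is singular for every choice of the big block
then the border row or the border column vanishes -/
theorem border_zero (B : Matrix α β ℂ) (C : Matrix β α ℂ)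
    (h : ∀ A : Matrix α α ℂ, (fromBlocks A B C (0 : Matrix β β ℂ)).det = 0) :
    (∀ a, B a default = 0) ∨ (∀ a, C default a = 0) := by
  have h1 : ∀ N : Matrix α α ℂ, N.det = 1 → (C * N * B) default default = 0 := by
    intro N hN
    have hM : (N⁻¹).det = 1 := by rw [det_nonsing_inv, hN]; simp
    have h2 := h N⁻¹
    rw [det_bordered _ (by rw [hM]; exact one_ne_zero), hM] at h2
    have h3 : (N⁻¹).adjugate = N := by
      have h4 : N⁻¹ * (N⁻¹).adjugate = 1 := by rw [mul_adjugate, hM, one_smul]
      have h5 : N * N⁻¹ = 1 := mul_nonsing_inv N (by rw [hN]; exact isUnit_one)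
      calc (N⁻¹).adjugate = (N * N⁻¹) * (N⁻¹).adjugate := by rw [h5, Matrix.one_mul]
        _ = N := by rw [Matrix.mul_assoc, h4, Matrix.mul_one]
    rw [h3] at h2
    simpa using h2
  have h0 : ∑ a, C default a * B a default = 0 := by
    have := h1 1 det_one
    rw [Matrix.mul_one, mul_apply] at this
    exact this
  have h2 : ∀ i j : α, i ≠ j → C default i * B j default = 0 := by
    intro i j hij
    have h3 := h1 (transvection i j 1) (det_transvection_of_ne i j hij 1)
    rw [transvection, Matrix.mul_add, Matrix.add_mul, Matrix.mul_one, Matrix.add_apply,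
      mul_apply, h0, zero_add] at h3
    rw [Matrix.mul_assoc, mul_apply] at h3
    rw [Finset.sum_eq_single i] at h3
    · rw [mul_apply, Finset.sum_eq_single j] at h3
      · simpa using h3
      · intro b _ hb
        simp [hb.symm]
      · simp
    · intro b _ hb
      rw [mul_apply, Finset.sum_eq_zero, mul_zero]
      intro c _
      simp [hb.symm]
    · simp
  by_cases hC : ∀ a, C default a = 0
  · exact Or.inr hC
  · left
    push Not at hC
    obtain ⟨i, hi⟩ := hC
    have hB : ∀ j, j ≠ i → B j default = 0 := fun j hj =>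
      (mul_eq_zero.mp (h2 i j hj.symm)).resolve_left hi
    intro a
    by_cases ha : a = i
    · subst ha
      rw [Finset.sum_eq_single a] at h0
      · exact (mul_eq_zero.mp h0).resolve_left hi
      · intro b _ hb
        rw [hB b hb, mul_zero]
      · simp
    · exact hB a ha

/-- Dieudonne's theorem when the space contains the standard matrix of corank one. -/
theorem block_dieudonne (W : Submodule ℂ (Matrix (α ⊕ β) (α ⊕ β) ℂ))
    (hW : ∀ X ∈ W, X.det = 0) (hJ : fromBlocks 1 0 0 0 ∈ W) :
    finrank ℂ W ≤ Fintype.card α * (Fintype.card α + 1) ∧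
    (Fintype.card α * (Fintype.card α + 1) ≤ finrank ℂ W →
      (∃ z : α ⊕ β → ℂ, z ≠ 0 ∧ ∀ X ∈ W, X *ᵥ z = 0) ∨
      (∃ y : α ⊕ β → ℂ, y ≠ 0 ∧ ∀ X ∈ W, y ᵥ* X = 0)) := by
  have hso : ∀ X ∈ W, X (Sum.inr default) (Sum.inr default) = 0 ∧
      ∑ a, X (Sum.inr default) (Sum.inl a) * X (Sum.inl a) (Sum.inr default) = 0 := by
    intro X hX
    have h := second_order X.toBlocks₁₁ X.toBlocks₁₂ X.toBlocks₂₁ X.toBlocks₂₂ (by
      intro s
      have h1 : fromBlocks 1 0 0 0 + s • X ∈ W := W.add_mem hJ (W.smul_mem s hX)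
      have h2 := hW _ h1
      rw [← fromBlocks_toBlocks X, fromBlocks_smul, fromBlocks_add] at h2
      simpa using h2)
    refine ⟨h.1, ?_⟩
    have h2 := h.2
    rw [mul_apply] at h2
    exact h2
  -- border map
  set π : W →ₗ[ℂ] (α → ℂ) × (α → ℂ) :=
    { toFun := fun X => (fun a => X.1 (Sum.inr default) (Sum.inl a),
        fun a => X.1 (Sum.inl a) (Sum.inr default))
      map_add' := fun _ _ => rfl
      map_smul' := fun _ _ => rfl } with hπ
  have hrn := LinearMap.finrank_range_add_finrank_ker π
  have hiso : finrank ℂ (LinearMap.range π) ≤ Fintype.card α := by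
    apply finrank_isotropic
    rintro _ ⟨X, rfl⟩
    exact (hso X.1 X.2).2
  set Θ : LinearMap.ker π →ₗ[ℂ] Matrix α α ℂ :=
    { toFun := fun X => X.1.1.toBlocks₁₁
      map_add' := fun _ _ => rfl
      map_smul' := fun _ _ => rfl } with hΘ
  have hkerform : ∀ X : LinearMap.ker π, X.1.1 = fromBlocks (Θ X) 0 0 0 := by
    intro X
    have hk : π X.1 = 0 := X.2
    have hk1 : ∀ a, X.1.1 (Sum.inr default) (Sum.inl a) = 0 := fun a =>
      congrFun (congrArg Prod.fst hk) a
    have hk2 : ∀ a, X.1.1 (Sum.inl a) (Sum.inr default) = 0 := fun a =>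
      congrFun (congrArg Prod.snd hk) a
    have hk3 := (hso X.1.1 X.1.2).1
    ext i j
    rcases i with i | i <;> rcases j with j | j
    · rfl
    · rw [Unique.eq_default j]; simpa using hk2 i
    · rw [Unique.eq_default i]; simpa using hk1 j
    · rw [Unique.eq_default i, Unique.eq_default j]; simpa using hk3
  have hΘinj : Function.Injective Θ := by
    intro X Y h
    apply Subtype.ext; apply Subtype.ext
    rw [hkerform X, hkerform Y, h]
  have hdimM : finrank ℂ (Matrix α α ℂ) = Fintype.card α * Fintype.card α := by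
    rw [finrank_matrix]; simp
  have hker : finrank ℂ (LinearMap.ker π) ≤ Fintype.card α * Fintype.card α := by
    rw [← hdimM]; exact LinearMap.finrank_le_finrank_of_injective hΘinj
  refine ⟨by nlinarith, fun hge => ?_⟩
  have hkereq : finrank ℂ (LinearMap.ker π) = finrank ℂ (Matrix α α ℂ) := by
    rw [hdimM]; nlinarith
  have hΘsurj : Function.Surjective Θ := by
    rw [← LinearMap.range_eq_top]
    apply Submodule.eq_top_of_finrank_eq
    rw [LinearMap.finrank_range_of_inj hΘinj, hkereq]
  have hfull : ∀ A : Matrix α α ℂ, fromBlocks A 0 0 0 ∈ W := by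
    intro A
    obtain ⟨X, hX⟩ := hΘsurj A
    rw [← hX, ← hkerform X]
    exact X.1.2
  have hor : ∀ X ∈ W, (∀ a, X (Sum.inl a) (Sum.inr default) = 0) ∨
      (∀ a, X (Sum.inr default) (Sum.inl a) = 0) := by
    intro X hX
    have hb := border_zero X.toBlocks₁₂ X.toBlocks₂₁ (by
      intro A
      have h1 : X + fromBlocks (A - X.toBlocks₁₁) 0 0 0 ∈ W := W.add_mem hX (hfull _)
      have h2 := hW _ h1
      have h3 : X + fromBlocks (A - X.toBlocks₁₁) 0 0 0 =
          fromBlocks A X.toBlocks₁₂ X.toBlocks₂₁ 0 := by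
        have h4 := (hso X hX).1
        ext i j
        rcases i with i | i <;> rcases j with j | j
        · simp [toBlocks₁₁]
        · simp [toBlocks₁₂]
        · simp [toBlocks₂₁]
        · rw [Unique.eq_default i, Unique.eq_default j]; simpa using h4
      rw [h3] at h2
      exact h2)
    exact hb
  by_cases hB : ∀ X ∈ W, ∀ a, X (Sum.inl a) (Sum.inr default) = 0
  · left
    refine ⟨Pi.single (Sum.inr default) 1, ?_, fun X hX => ?_⟩
    · intro h
      have := congrFun h (Sum.inr default)
      simp at this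
    · ext i
      rw [mulVec_single_one]
      rcases i with i | i
      · exact hB X hX i
      · rw [Unique.eq_default i]
        exact (hso X hX).1
  · right
    push Not at hB
    obtain ⟨X₁, hX₁, a₁, ha₁⟩ := hB
    have hC₁ : ∀ a, X₁ (Sum.inr default) (Sum.inl a) = 0 :=
      (hor X₁ hX₁).resolve_left (fun h => ha₁ (h a₁))
    have hC : ∀ X ∈ W, ∀ a, X (Sum.inr default) (Sum.inl a) = 0 := by
      intro X hX
      rcases hor X hX with h | h
      · rcases hor (X₁ + X) (W.add_mem hX₁ hX) with h' | h'
        · exfalso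
          apply ha₁
          have := h' a₁
          rw [Matrix.add_apply, h a₁, add_zero] at this
          exact this
        · intro a
          have := h' a
          rw [Matrix.add_apply, hC₁ a, zero_add] at this
          exact this
      · exact h
    refine ⟨Pi.single (Sum.inr default) 1, ?_, fun X hX => ?_⟩
    · intro h
      have := congrFun h (Sum.inr default)
      simp at this
    · ext i
      rw [single_one_vecMul]
      rcases i with i | i
      · exact hC X hX i
      · rw [Unique.eq_default i]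
        exact (hso X hX).1

end blocks

section general

variable {ι : Type*} [Fintype ι] [DecidableEq ι]

omit [DecidableEq ι] in
theorem rank_add_le' (X Y : Matrix ι ι ℂ) : (X + Y).rank ≤ X.rank + Y.rank := by
  unfold Matrix.rank
  have h : LinearMap.range (X + Y).mulVecLin ≤
      LinearMap.range X.mulVecLin ⊔ LinearMap.range Y.mulVecLin := by
    rintro _ ⟨v, rfl⟩
    rw [Matrix.mulVecLin_add, LinearMap.add_apply]
    exact add_mem_sup ⟨v, rfl⟩ ⟨v, rfl⟩
  exact (finrank_mono h).trans (finrank_add_le_finrank_add_finrank _ _)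

theorem rank_lt_of_det_eq_zero {X : Matrix ι ι ℂ} (h : X.det = 0) :
    X.rank < Fintype.card ι := by
  obtain ⟨v, hv, hXv⟩ := exists_mulVec_eq_zero_iff.mpr h
  have h1 := LinearMap.finrank_range_add_finrank_ker X.mulVecLin
  rw [finrank_fintype_fun_eq_card] at h1
  have h2 : 0 < finrank ℂ (LinearMap.ker X.mulVecLin) := by
    rw [finrank_pos_iff]
    exact ⟨⟨⟨v, hXv⟩, 0, fun h => hv (congrArg Subtype.val h)⟩⟩
  change finrank ℂ (LinearMap.range X.mulVecLin) < _
  omega

theorem det_eq_zero_of_rank_lt {X : Matrix ι ι ℂ} (h : X.rank < Fintype.card ι) :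
    X.det = 0 := by
  by_contra h'
  rw [rank_of_det_ne_zero h'] at h
  exact lt_irrefl _ h

/-- every singular space lies in a singular space containing a matrix of corank one -/
theorem exists_enlarge [Nonempty ι] (W : Submodule ℂ (Matrix ι ι ℂ)) (hW : ∀ X ∈ W, X.det = 0) :
    ∃ W' : Submodule ℂ (Matrix ι ι ℂ), W ≤ W' ∧ (∀ X ∈ W', X.det = 0) ∧
      ∃ X ∈ W', X.rank + 1 = Fintype.card ι := by
  obtain ⟨W', ⟨hWW', hW'⟩, hmax⟩ := WellFounded.has_min
    (wellFounded_gt : WellFounded ((· > ·) : Submodule ℂ (Matrix ι ι ℂ) → _ → Prop))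
    {W' : Submodule ℂ (Matrix ι ι ℂ) | W ≤ W' ∧ ∀ X ∈ W', X.det = 0} ⟨W, le_rfl, hW⟩
  refine ⟨W', hWW', hW', ?_⟩
  by_contra hno
  push Not at hno
  have hrank : ∀ X ∈ W', X.rank + 2 ≤ Fintype.card ι := by
    intro X hX
    have h1 := rank_lt_of_det_eq_zero (hW' X hX)
    have h2 := hno X hX
    omega
  have hall : ∀ u v : ι → ℂ, vecMulVec u v ∈ W' := by
    intro u v
    have hnot := hmax (W' ⊔ span ℂ {vecMulVec u v}) ⟨hWW'.trans le_sup_left, ?_⟩
    · have h1 : W' ⊔ span ℂ {vecMulVec u v} ≤ W' := by
        by_contra h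
        exact hnot (lt_of_le_not_ge le_sup_left h)
      exact h1 (mem_sup_right (mem_span_singleton_self _))
    · intro X hX
      obtain ⟨Y, hY, Z, hZ, rfl⟩ := mem_sup.mp hX
      obtain ⟨c, rfl⟩ := mem_span_singleton.mp hZ
      apply det_eq_zero_of_rank_lt
      have h1 := rank_add_le' Y (c • vecMulVec u v)
      have h2 : (c • vecMulVec u v).rank ≤ 1 := by
        rw [← smul_vecMulVec]
        exact rank_vecMulVec_le _ _
      have h3 := hrank Y hY
      omega
  have hone : (1 : Matrix ι ι ℂ) ∈ W' := by
    have h1 : (1 : Matrix ι ι ℂ) = ∑ i, vecMulVec (Pi.single i 1) (Pi.single i 1) := by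
      ext a b
      rw [Matrix.sum_apply]
      simp only [vecMulVec_apply, Pi.single_apply, mul_ite, mul_one, mul_zero]
      by_cases hab : a = b
      · subst hab
        rw [Finset.sum_eq_single a]
        · simp
        · intro c _ hc
          simp [hc.symm]
        · simp
      · rw [Matrix.one_apply_ne hab, Finset.sum_eq_zero]
        intro c _
        by_cases hbc : b = c
        · subst hbc; simp [hab]
        · simp [hbc]
    rw [h1]
    exact W'.sum_mem fun i _ => hall _ _
  have := hW' 1 hone
  rw [det_one] at this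
  exact one_ne_zero this

/-- **Dieudonne's theorem** on linear spaces of singular matrices. -/
theorem dieudonne [Nonempty ι] (W : Submodule ℂ (Matrix ι ι ℂ)) (hW : ∀ X ∈ W, X.det = 0) :
    finrank ℂ W ≤ Fintype.card ι * (Fintype.card ι - 1) ∧
    (Fintype.card ι * (Fintype.card ι - 1) ≤ finrank ℂ W →
      (∃ z : ι → ℂ, z ≠ 0 ∧ ∀ X ∈ W, X *ᵥ z = 0) ∨
      (∃ y : ι → ℂ, y ≠ 0 ∧ ∀ X ∈ W, y ᵥ* X = 0)) := by
  obtain ⟨W', hWW', hW', X₀, hX₀, hrk⟩ := exists_enlarge W hW
  obtain ⟨V, U, e, hV, hU, hVU⟩ := exists_rank_normal_form X₀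
  have hcard : Fintype.card ι - X₀.rank = 1 := by omega
  let _ : Unique (Fin (Fintype.card ι - X₀.rank)) := by rw [hcard]; infer_instance
  have hVd : IsUnit V.det := (isUnit_iff_isUnit_det _).mp hV
  have hUd : IsUnit U.det := (isUnit_iff_isUnit_det _).mp hU
  -- change of coordinates
  set Θ : Matrix ι ι ℂ →ₗ[ℂ] Matrix (Fin X₀.rank ⊕ Fin (Fintype.card ι - X₀.rank))
      (Fin X₀.rank ⊕ Fin (Fintype.card ι - X₀.rank)) ℂ :=
    { toFun := fun X => (V * X * U).submatrix e.symm e.symm
      map_add' := by
        intro X Y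
        rw [Matrix.mul_add, Matrix.add_mul]; rfl
      map_smul' := by
        intro c X
        rw [Matrix.mul_smul, Matrix.smul_mul]; rfl } with hΘ
  have hΘinj : Function.Injective Θ := by
    rw [← LinearMap.ker_eq_bot, LinearMap.ker_eq_bot']
    intro X hX
    have h1 : (V * X * U).submatrix e.symm e.symm = 0 := hX
    have h2 : V * X * U = 0 := by
      ext i j
      have := congrFun (congrFun h1 (e i)) (e j)
      simpa using this
    have h3 : V⁻¹ * (V * X * U) * U⁻¹ = X := by
      rw [Matrix.mul_assoc V X U, ← Matrix.mul_assoc V⁻¹ V, nonsing_inv_mul V hVd,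
        Matrix.one_mul, Matrix.mul_assoc, mul_nonsing_inv U hUd, Matrix.mul_one]
    rw [← h3, h2]; simp
  set W₁ := W'.map Θ with hW₁
  have hdim : finrank ℂ W₁ = finrank ℂ W' :=
    (LinearEquiv.finrank_eq (Submodule.equivMapOfInjective Θ hΘinj W')).symm
  have hsing : ∀ Y ∈ W₁, Y.det = 0 := by
    rintro _ ⟨X, hX, rfl⟩
    change ((V * X * U).submatrix e.symm e.symm).det = 0
    rw [det_submatrix_equiv_self, det_mul, det_mul, hW' X hX]; simp
  have hJ : fromBlocks 1 0 0 0 ∈ W₁ := by
    refine ⟨X₀, hX₀, ?_⟩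
    change (V * X₀ * U).submatrix e.symm e.symm = _
    rw [hVU, submatrix_submatrix]; simp
  have hmain := block_dieudonne W₁ hsing hJ
  simp only [Fintype.card_fin] at hmain
  rw [hrk] at hmain
  have hr : X₀.rank = Fintype.card ι - 1 := by omega
  rw [hdim] at hmain
  have hle : finrank ℂ W ≤ finrank ℂ W' := finrank_mono hWW'
  have hcomm : Fintype.card ι * (Fintype.card ι - 1) = X₀.rank * Fintype.card ι := by
    rw [hr]; exact mul_comm _ _
  refine ⟨by rw [hcomm]; exact hle.trans hmain.1, fun hge => ?_⟩
  rcases hmain.2 (by rw [← hcomm]; exact hge.trans hle) with ⟨z, hz, h⟩ | ⟨y, hy, h⟩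
  · left
    refine ⟨U *ᵥ (z ∘ e), ?_, fun X hX => ?_⟩
    · intro h0
      apply hz
      have h1 : U⁻¹ *ᵥ (U *ᵥ (z ∘ e)) = z ∘ e := by
        rw [mulVec_mulVec, nonsing_inv_mul U hUd, one_mulVec]
      rw [h0, mulVec_zero] at h1
      ext i
      have := congrFun h1 (e.symm i)
      simpa using this.symm
    · have h1 := h (Θ X) ⟨X, hWW' hX, rfl⟩
      change (V * X * U).submatrix e.symm e.symm *ᵥ z = 0 at h1
      rw [submatrix_mulVec_equiv] at h1
      have h2 : (V * X * U) *ᵥ (z ∘ e) = 0 := by
        ext i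
        have := congrFun h1 (e i)
        simpa using this
      have h3 : V⁻¹ *ᵥ ((V * X * U) *ᵥ (z ∘ e)) = X *ᵥ (U *ᵥ (z ∘ e)) := by
        rw [mulVec_mulVec, mulVec_mulVec, Matrix.mul_assoc V X U, ← Matrix.mul_assoc V⁻¹ V,
          nonsing_inv_mul V hVd, Matrix.one_mul]
      rw [← h3, h2, mulVec_zero]
  · right
    refine ⟨(y ∘ e) ᵥ* V, ?_, fun X hX => ?_⟩
    · intro h0
      apply hy
      have h1 : ((y ∘ e) ᵥ* V) ᵥ* V⁻¹ = y ∘ e := by
        rw [vecMul_vecMul, mul_nonsing_inv V hVd, vecMul_one]
      rw [h0, zero_vecMul] at h1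
      ext i
      have := congrFun h1 (e.symm i)
      simpa using this.symm
    · have h1 := h (Θ X) ⟨X, hWW' hX, rfl⟩
      change y ᵥ* (V * X * U).submatrix e.symm e.symm = 0 at h1
      rw [submatrix_vecMul_equiv] at h1
      have h2 : (y ∘ e) ᵥ* (V * X * U) = 0 := by
        ext i
        have := congrFun h1 (e i)
        simpa using this
      have h3 : ((y ∘ e) ᵥ* (V * X * U)) ᵥ* U⁻¹ = ((y ∘ e) ᵥ* V) ᵥ* X := by
        rw [vecMul_vecMul, vecMul_vecMul, Matrix.mul_assoc (V * X) U, mul_nonsing_inv U hUd,
          Matrix.mul_one]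
      rw [← h3, h2, zero_vecMul]

end general

end Pool.Agent.H44.Sing
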