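import Mathlib
import Pool.Agent.H44.Sing.Dieudonne

/-!
Large linear spaces of singular matrix tuples.
-/

open Matrix Module Submodule

namespace Pool.Agent.H44.Sing

variable {μ ι : Type*} [Fintype μ] [DecidableEq μ] [Fintype ι] [DecidableEq ι]

/-- A tuple of matrices is singular when all its linear combinations are singular. -/
def SingTuple (X : μ → Matrix ι ι ℂ) : Prop := ∀ c : μ → ℂ, (∑ i, c i • X i).det = 0

omit [DecidableEq μ] in
theorem SingTuple.zero [Nonempty ι] : SingTuple (0 : μ → Matrix ι ι ℂ) := by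
  intro c
  simp [det_zero]

theorem tuple_dieudonne [Nonempty μ] [Nonempty ι] (W : Submodule ℂ (μ → Matrix ι ι ℂ))
    (hW : ∀ X ∈ W, SingTuple X)
    (hdim : Fintype.card μ * (Fintype.card ι * (Fintype.card ι - 1)) ≤ finrank ℂ W) :
    (∃ z : ι → ℂ, z ≠ 0 ∧ ∀ X ∈ W, ∀ i, X i *ᵥ z = 0) ∨
      (∃ y : ι → ℂ, y ≠ 0 ∧ ∀ X ∈ W, ∀ i, y ᵥ* X i = 0) := by
  set d := Fintype.card ι * (Fintype.card ι - 1) with hd
  set Wi : μ → Submodule ℂ (Matrix ι ι ℂ) := fun i => W.map (LinearMap.proj i) with hWi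
  have hsing : ∀ i, ∀ X ∈ Wi i, X.det = 0 := by
    rintro i _ ⟨X, hX, rfl⟩
    have h := hW X hX (Pi.single i 1)
    rw [Finset.sum_eq_single i] at h
    · simpa using h
    · intro b _ hb
      simp [hb]
    · simp
  have hle : ∀ i, finrank ℂ (Wi i) ≤ d := fun i => (dieudonne (Wi i) (hsing i)).1
  -- the embedding into the product
  set Φ : W →ₗ[ℂ] (∀ i, Wi i) :=
    { toFun := fun X i => ⟨X.1 i, X.1, X.2, rfl⟩
      map_add' := fun _ _ => rfl
      map_smul' := fun _ _ => rfl } with hΦ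
  have hΦinj : Function.Injective Φ := by
    intro X Y h
    apply Subtype.ext
    funext i
    exact congrArg Subtype.val (congrFun h i)
  have hprod : finrank ℂ (∀ i, Wi i) = ∑ i, finrank ℂ (Wi i) := finrank_pi_fintype ℂ
  have hle1 : finrank ℂ W ≤ ∑ i, finrank ℂ (Wi i) := by
    rw [← hprod]; exact LinearMap.finrank_le_finrank_of_injective hΦinj
  have hsumle : ∑ i, finrank ℂ (Wi i) ≤ ∑ _i : μ, d := Finset.sum_le_sum fun i _ => hle i
  have hconst : ∑ _i : μ, d = Fintype.card μ * d := by simp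
  have heq : ∀ i, finrank ℂ (Wi i) = d := by
    have h1 : ∑ i, finrank ℂ (Wi i) = ∑ _i : μ, d :=
      le_antisymm hsumle (by rw [hconst]; exact hdim.trans hle1)
    intro i
    exact (Finset.sum_eq_sum_iff_of_le (fun i _ => hle i)).mp h1 i (Finset.mem_univ i)
  have hΦsurj : Function.Surjective Φ := by
    rw [← LinearMap.range_eq_top]
    apply Submodule.eq_top_of_finrank_eq
    rw [LinearMap.finrank_range_of_inj hΦinj]
    refine le_antisymm (by rw [hprod]; exact hle1) ?_
    rw [hprod]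
    exact hsumle.trans (by rw [hconst]; exact hdim)
  have hpair : ∀ i j, i ≠ j → Wi j ≤ Wi i := by
    intro i j hij
    have hs : ∀ X ∈ Wi i ⊔ Wi j, X.det = 0 := by
      intro X hX
      obtain ⟨A, hA, B, hB, rfl⟩ := mem_sup.mp hX
      obtain ⟨Z, hZ⟩ := hΦsurj (fun k => if h : k = i then ⟨A, h ▸ hA⟩ else
        if h : k = j then ⟨B, h ▸ hB⟩ else 0)
      have hZi : Z.1 i = A := by
        have := congrArg Subtype.val (congrFun hZ i)
        simpa [hΦ] using this
      have hZj : Z.1 j = B := by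
        have := congrArg Subtype.val (congrFun hZ j)
        simpa [hΦ, hij.symm] using this
      have h := hW Z.1 Z.2 (Pi.single i 1 + Pi.single j 1)
      have h2 : ∑ k, (Pi.single i 1 + Pi.single j 1 : μ → ℂ) k • Z.1 k = A + B := by
        simp only [Pi.add_apply, add_smul, Finset.sum_add_distrib]
        rw [Finset.sum_eq_single i, Finset.sum_eq_single j]
        · simp [hZi, hZj]
        · intro b _ hb; simp [hb]
        · simp
        · intro b _ hb; simp [hb]
        · simp
      rw [h2] at h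
      exact h
    have h1 := (dieudonne _ hs).1
    have h2 : Wi i = Wi i ⊔ Wi j := by
      apply Submodule.eq_of_le_of_finrank_le le_sup_left
      rw [heq i]; exact h1
    rw [h2]
    exact le_sup_right
  let i₀ : μ := Classical.arbitrary μ
  have hall : ∀ i, Wi i ≤ Wi i₀ := by
    intro i
    by_cases h : i = i₀
    · rw [h]
    · exact hpair i₀ i (fun h' => h h'.symm)
  rcases (dieudonne (Wi i₀) (hsing i₀)).2 (heq i₀).ge with ⟨z, hz, h⟩ | ⟨y, hy, h⟩
  · exact Or.inl ⟨z, hz, fun X hX i => h _ (hall i ⟨X, hX, rfl⟩)⟩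
  · exact Or.inr ⟨y, hy, fun X hX i => h _ (hall i ⟨X, hX, rfl⟩)⟩

end Pool.Agent.H44.Sing
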