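import Mathlib
import Pool.Agent.H44.Sing.TupleSpace

/-!
Linear bijections preserving singular matrix tuples.
-/

open Matrix Module Submodule

namespace Pool.Agent.H44.Sing

variable {μ ι : Type*} [Fintype μ] [DecidableEq μ] [Fintype ι] [DecidableEq ι]

/-- evaluation of a tuple at a vector -/
noncomputable def ev (μ : Type*) [Fintype μ] (z : ι → ℂ) :
    (μ → Matrix ι ι ℂ) →ₗ[ℂ] (μ → ι → ℂ) where
  toFun X := fun i => X i *ᵥ z
  map_add' X Y := by funext i; exact add_mulVec _ _ _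
  map_smul' c X := by funext i; exact smul_mulVec c (X i) z

omit [DecidableEq μ] [DecidableEq ι] in
theorem ev_apply (z : ι → ℂ) (X : μ → Matrix ι ι ℂ) (i : μ) : ev μ z X i = X i *ᵥ z := rfl

omit [DecidableEq μ] [DecidableEq ι] in
theorem ev_add (z w : ι → ℂ) (X : μ → Matrix ι ι ℂ) : ev μ (z + w) X = ev μ z X + ev μ w X := by
  funext i; exact mulVec_add _ _ _

omit [DecidableEq μ] [DecidableEq ι] in
theorem ev_smul (c : ℂ) (z : ι → ℂ) (X : μ → Matrix ι ι ℂ) : ev μ (c • z) X = c • ev μ z X := by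
  funext i; exact mulVec_smul _ _ _

omit [DecidableEq μ] [DecidableEq ι] in
theorem ev_sum {κ : Type*} (s : Finset κ) (c : κ → ℂ) (z : κ → ι → ℂ) (X : μ → Matrix ι ι ℂ) :
    ev μ (∑ k ∈ s, c k • z k) X = ∑ k ∈ s, c k • ev μ (z k) X := by
  classical
  induction s using Finset.induction_on with
  | empty => funext i; simp [ev_apply]
  | insert a s ha ih => rw [Finset.sum_insert ha, Finset.sum_insert ha, ev_add, ev_smul, ih]

/-- tuples killing a vector on the right -/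
noncomputable def K (μ : Type*) [Fintype μ] (z : ι → ℂ) : Submodule ℂ (μ → Matrix ι ι ℂ) :=
  LinearMap.ker (ev μ z)

omit [DecidableEq μ] [DecidableEq ι] in
theorem mem_K {z : ι → ℂ} {X : μ → Matrix ι ι ℂ} : X ∈ K μ z ↔ ∀ i, X i *ᵥ z = 0 := by
  rw [K, LinearMap.mem_ker]
  exact funext_iff

omit [DecidableEq μ] [DecidableEq ι] in
theorem mem_K' {z : ι → ℂ} {X : μ → Matrix ι ι ℂ} : X ∈ K μ z ↔ ev μ z X = 0 := by
  rw [K, LinearMap.mem_ker]

/-- transposition of tuples -/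
noncomputable def tr (μ ι : Type*) [Fintype μ] [Fintype ι] :
    (μ → Matrix ι ι ℂ) ≃ₗ[ℂ] (μ → Matrix ι ι ℂ) where
  toFun X := fun i => (X i)ᵀ
  map_add' _ _ := rfl
  map_smul' _ _ := rfl
  invFun X := fun i => (X i)ᵀ
  left_inv _ := rfl
  right_inv _ := rfl

omit [DecidableEq μ] [DecidableEq ι] in
theorem tr_apply (X : μ → Matrix ι ι ℂ) (i : μ) : tr μ ι X i = (X i)ᵀ := rfl

omit [DecidableEq μ] [DecidableEq ι] in
theorem tr_tr (X : μ → Matrix ι ι ℂ) : tr μ ι (tr μ ι X) = X := rfl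

omit [DecidableEq μ] in
theorem SingTuple.tr {X : μ → Matrix ι ι ℂ} (h : SingTuple X) : SingTuple (tr μ ι X) := by
  intro c
  have h1 := h c
  rw [← det_transpose, transpose_sum] at h1
  simpa [tr_apply, transpose_smul] using h1

/-- tuples killed by a vector on the left -/
noncomputable def K' (μ : Type*) [Fintype μ] (y : ι → ℂ) : Submodule ℂ (μ → Matrix ι ι ℂ) :=
  (K μ y).map (tr μ ι).toLinearMap

omit [DecidableEq μ] [DecidableEq ι] in
theorem mem_K'_iff {y : ι → ℂ} {X : μ → Matrix ι ι ℂ} : X ∈ K' μ y ↔ ∀ i, y ᵥ* X i = 0 := by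
  unfold K'
  constructor
  · rintro ⟨Y, hY, rfl⟩ i
    have := mem_K.mp hY i
    change y ᵥ* (Y i)ᵀ = 0
    rw [vecMul_transpose, this]
  · intro h
    refine ⟨tr μ ι X, mem_K.mpr fun i => ?_, tr_tr X⟩
    rw [tr_apply, mulVec_transpose, h i]

/-- insertion of a column -/
def ins (k : ι) (u : μ → ι → ℂ) : μ → Matrix ι ι ℂ := fun i => vecMulVec (u i) (Pi.single k 1)

omit [DecidableEq μ] in
theorem ev_ins (z : ι → ℂ) (k : ι) (u : μ → ι → ℂ) : ev μ z (ins k u) = z k • u := by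
  funext i
  rw [ev_apply, ins, vecMulVec_mulVec]
  funext j
  simp [mul_comm]

omit [DecidableEq μ] in
theorem ev_surjective {z : ι → ℂ} (hz : z ≠ 0) : Function.Surjective (ev μ z) := by
  obtain ⟨k, hk⟩ := Function.ne_iff.mp hz
  intro u
  refine ⟨ins k ((z k)⁻¹ • u), ?_⟩
  rw [ev_ins, smul_smul, mul_inv_cancel₀ hk, one_smul]

omit [DecidableEq μ] in
theorem finrank_K {z : ι → ℂ} (hz : z ≠ 0) :
    finrank ℂ (K μ z) = Fintype.card μ * (Fintype.card ι * (Fintype.card ι - 1)) := by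
  have h := LinearMap.finrank_range_add_finrank_ker (ev μ z)
  rw [LinearMap.range_eq_top.mpr (ev_surjective hz), finrank_top] at h
  have h1 : finrank ℂ (μ → ι → ℂ) = Fintype.card μ * Fintype.card ι := by
    rw [finrank_pi_fintype]; simp
  have h2 : finrank ℂ (μ → Matrix ι ι ℂ) = Fintype.card μ * (Fintype.card ι * Fintype.card ι) := by
    rw [finrank_pi_fintype]; simp [finrank_matrix]
  rw [h1, h2] at h
  change finrank ℂ (LinearMap.ker (ev μ z)) = _
  obtain ⟨k, -⟩ := Function.ne_iff.mp hz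
  have hpos : 0 < Fintype.card ι := Fintype.card_pos_iff.mpr ⟨k⟩
  obtain ⟨c, hc⟩ := Nat.exists_eq_succ_of_ne_zero hpos.ne'
  rw [hc] at h ⊢
  simp only [Nat.succ_sub_one]
  have : Fintype.card μ * (c.succ * c.succ) = Fintype.card μ * c.succ +
    Fintype.card μ * (c.succ * c) := by rw [Nat.succ_eq_add_one]; ring
  omega

omit [DecidableEq μ] in
theorem finrank_K' {y : ι → ℂ} (hy : y ≠ 0) :
    finrank ℂ (K' μ y) = Fintype.card μ * (Fintype.card ι * (Fintype.card ι - 1)) := by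
  rw [← finrank_K (μ := μ) hy]
  exact LinearEquiv.finrank_map_eq _ _

omit [DecidableEq μ] in
theorem singTuple_of_mem_K {z : ι → ℂ} (hz : z ≠ 0) {X : μ → Matrix ι ι ℂ} (hX : X ∈ K μ z) :
    SingTuple X := by
  intro c
  rw [← exists_mulVec_eq_zero_iff]
  refine ⟨z, hz, ?_⟩
  rw [sum_mulVec]
  refine Finset.sum_eq_zero fun i _ => ?_
  rw [smul_mulVec, mem_K.mp hX i, smul_zero]

omit [DecidableEq μ] in
theorem singTuple_of_mem_K' {y : ι → ℂ} (hy : y ≠ 0) {X : μ → Matrix ι ι ℂ} (hX : X ∈ K' μ y) :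
    SingTuple X := by
  obtain ⟨Y, hY, rfl⟩ := hX
  exact (singTuple_of_mem_K hy hY).tr

/-- first alternative -/
def P1 (U : Submodule ℂ (μ → Matrix ι ι ℂ)) : Prop := ∃ x : ι → ℂ, x ≠ 0 ∧ U = K μ x

/-- second alternative -/
def P2 (U : Submodule ℂ (μ → Matrix ι ι ℂ)) : Prop := ∃ y : ι → ℂ, y ≠ 0 ∧ U = K' μ y

theorem alternatives [Nonempty μ] [Nonempty ι] (U : Submodule ℂ (μ → Matrix ι ι ℂ))
    (hU : ∀ X ∈ U, SingTuple X)
    (hdim : finrank ℂ U = Fintype.card μ * (Fintype.card ι * (Fintype.card ι - 1))) :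
    P1 U ∨ P2 U := by
  rcases tuple_dieudonne U hU hdim.ge with ⟨z, hz, h⟩ | ⟨y, hy, h⟩
  · left
    refine ⟨z, hz, ?_⟩
    apply Submodule.eq_of_le_of_finrank_eq
    · intro X hX; exact mem_K.mpr (h X hX)
    · rw [hdim, finrank_K hz]
  · right
    refine ⟨y, hy, ?_⟩
    apply Submodule.eq_of_le_of_finrank_eq
    · intro X hX; exact mem_K'_iff.mpr (h X hX)
    · rw [hdim, finrank_K' hy]

theorem alternatives_K [Nonempty μ] [Nonempty ι]
    (g : (μ → Matrix ι ι ℂ) ≃ₗ[ℂ] (μ → Matrix ι ι ℂ))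
    (hg : ∀ X, SingTuple X → SingTuple (g X)) {z : ι → ℂ} (hz : z ≠ 0) :
    P1 ((K μ z).map g.toLinearMap) ∨ P2 ((K μ z).map g.toLinearMap) := by
  apply alternatives
  · rintro _ ⟨X, hX, rfl⟩
    exact hg X (singTuple_of_mem_K hz hX)
  · rw [← finrank_K (μ := μ) hz]
    exact LinearEquiv.finrank_map_eq _ _

theorem alternatives_K' [Nonempty μ] [Nonempty ι]
    (g : (μ → Matrix ι ι ℂ) ≃ₗ[ℂ] (μ → Matrix ι ι ℂ))
    (hg : ∀ X, SingTuple X → SingTuple (g X)) {z : ι → ℂ} (hz : z ≠ 0) :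
    P1 ((K' μ z).map g.toLinearMap) ∨ P2 ((K' μ z).map g.toLinearMap) := by
  apply alternatives
  · rintro _ ⟨X, hX, rfl⟩
    exact hg X (singTuple_of_mem_K' hz hX)
  · rw [← finrank_K' (μ := μ) hz]
    exact LinearEquiv.finrank_map_eq _ _

/-- a nonzero vector orthogonal to a given one -/
theorem exists_orth (hn : 2 ≤ Fintype.card ι) (y : ι → ℂ) : ∃ u : ι → ℂ, u ≠ 0 ∧ y ⬝ᵥ u = 0 := by
  have h : ∃ u, u ≠ 0 ∧ (LinearMap.ker (dotProductEquiv ℂ ι y)).subtype u ∈
      LinearMap.ker (dotProductEquiv ℂ ι y) := by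
    have h1 := LinearMap.finrank_range_add_finrank_ker (dotProductEquiv ℂ ι y)
    rw [finrank_fintype_fun_eq_card] at h1
    have h2 : finrank ℂ (LinearMap.range (dotProductEquiv ℂ ι y)) ≤ 1 := by
      refine (Submodule.finrank_le _).trans ?_
      simp
    have h3 : 0 < finrank ℂ (LinearMap.ker (dotProductEquiv ℂ ι y)) := by omega
    rw [finrank_pos_iff] at h3
    obtain ⟨u, hu⟩ := exists_ne (0 : LinearMap.ker (dotProductEquiv ℂ ι y))
    exact ⟨u, hu, u.2⟩
  obtain ⟨u, hu, hu2⟩ := h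
  refine ⟨u.1, fun h => hu (Subtype.ext h), ?_⟩
  exact LinearMap.mem_ker.mp hu2

/-- separating linear functional -/
theorem exists_sep {x x' : ι → ℂ} (h : x' ∉ span ℂ {x}) :
    ∃ v : ι → ℂ, v ⬝ᵥ x = 0 ∧ v ⬝ᵥ x' ≠ 0 := by
  obtain ⟨f, hf, hf2⟩ := Submodule.exists_le_ker_of_notMem h
  refine ⟨(dotProductEquiv ℂ ι).symm f, ?_, ?_⟩
  · have h1 : f x = 0 := hf2 (mem_span_singleton_self x)
    have h2 := (dotProductEquiv ℂ ι).apply_symm_apply f
    have h3 : dotProductEquiv ℂ ι ((dotProductEquiv ℂ ι).symm f) x = f x := by rw [h2]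
    exact h3.trans h1
  · have h2 := (dotProductEquiv ℂ ι).apply_symm_apply f
    have h3 : dotProductEquiv ℂ ι ((dotProductEquiv ℂ ι).symm f) x' = f x' := by rw [h2]
    intro h4
    exact hf (h3.symm.trans h4)

omit [DecidableEq μ] in
/-- if `K x ∩ K' y ⊆ K x'` then `x'` is a multiple of `x` -/
theorem mem_span_of_inf_le [Nonempty μ] (hn : 2 ≤ Fintype.card ι) {x x' y : ι → ℂ}
    (h : K μ x ⊓ K' μ y ≤ K μ x') : x' ∈ span ℂ {x} := by
  by_contra hx
  obtain ⟨v, hv, hv'⟩ := exists_sep hx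
  obtain ⟨u, hu, hyu⟩ := exists_orth hn y
  have h1 : (fun _ : μ => vecMulVec u v) ∈ K μ x ⊓ K' μ y := by
    refine ⟨mem_K.mpr fun i => ?_, mem_K'_iff.mpr fun i => ?_⟩
    · rw [vecMulVec_mulVec, hv]; simp
    · rw [vecMul_vecMulVec, hyu]; simp
  have h2 := mem_K.mp (h h1) (Classical.arbitrary μ)
  rw [vecMulVec_mulVec] at h2
  obtain ⟨j, hj⟩ := Function.ne_iff.mp hu
  have h3 := congrFun h2 j
  simp only [Pi.smul_apply, MulOpposite.smul_eq_mul_unop, MulOpposite.unop_op, Pi.zero_apply,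
    mul_eq_zero] at h3
  rcases h3 with h3 | h3
  · exact hj h3
  · exact hv' h3

theorem mem_span_of_le [Nonempty μ] (hn : 2 ≤ Fintype.card ι) {x x' : ι → ℂ}
    (h : K μ x ≤ K μ x') : x' ∈ span ℂ {x} :=
  mem_span_of_inf_le (y := 0) hn (inf_le_left.trans h)

omit [DecidableEq μ] [DecidableEq ι] in
theorem K_smul {c : ℂ} (hc : c ≠ 0) (z : ι → ℂ) : K μ (c • z) = K μ z := by
  ext X
  rw [mem_K', mem_K', ev_smul, smul_eq_zero]
  simp [hc]

omit [DecidableEq μ] in
theorem K_ne_K' [Nonempty μ] (hn : 2 ≤ Fintype.card ι) {x y : ι → ℂ} (hx : x ≠ 0) :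
    K μ x ≠ K' μ y := by
  intro h
  -- pick a vector not in the span of x
  obtain ⟨v, hv, hv2⟩ := exists_orth hn x
  obtain ⟨w, hw⟩ : ∃ w : ι → ℂ, w ∉ span ℂ {x} := by
    by_contra hall
    push Not at hall
    have htop : span ℂ {x} = (⊤ : Submodule ℂ (ι → ℂ)) := eq_top_iff.mpr fun w _ => hall w
    have h1 := finrank_span_singleton (K := ℂ) hx
    rw [htop, finrank_top, finrank_fintype_fun_eq_card] at h1
    omega
  obtain ⟨f, hf, hf'⟩ := exists_sep hw
  -- the rank one tuples u ⊗ f lie in K x = K' y for every u, forcing y = 0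
  have hy : y = 0 := by
    by_contra hy0
    obtain ⟨k, hk⟩ := Function.ne_iff.mp hy0
    have h1 : (fun _ : μ => vecMulVec (Pi.single k 1) f) ∈ K μ x :=
      mem_K.mpr fun i => by rw [vecMulVec_mulVec, hf]; simp
    rw [h] at h1
    have h2 := mem_K'_iff.mp h1 (Classical.arbitrary μ)
    rw [vecMul_vecMulVec] at h2
    have hf0 : f ≠ 0 := fun h0 => hf' (by rw [h0, zero_dotProduct])
    rcases smul_eq_zero.mp h2 with h3 | h3
    · apply hk
      simpa using h3
    · exact hf0 h3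
  subst hy
  have h1 : (K' μ (0 : ι → ℂ)) = ⊤ := by
    rw [eq_top_iff]
    intro X _
    exact mem_K'_iff.mpr fun i => zero_vecMul _
  rw [h1] at h
  have h2 : (fun _ : μ => (1 : Matrix ι ι ℂ)) ∈ K μ x := by rw [h]; trivial
  have h3 := mem_K.mp h2 (Classical.arbitrary μ)
  rw [one_mulVec] at h3
  exact hx h3

theorem P1_not_P2 [Nonempty μ] (hn : 2 ≤ Fintype.card ι) {U : Submodule ℂ (μ → Matrix ι ι ℂ)}
    (h1 : P1 U) (h2 : P2 U) : False := by
  obtain ⟨x, hx, rfl⟩ := h1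
  obtain ⟨y, hy, h⟩ := h2
  exact K_ne_K' hn hx h

omit [DecidableEq μ] [DecidableEq ι] in
theorem map_tr_K (z : ι → ℂ) : (K μ z).map (tr μ ι).toLinearMap = K' μ z := rfl

omit [DecidableEq μ] [DecidableEq ι] in
theorem map_tr_K' (z : ι → ℂ) : (K' μ z).map (tr μ ι).toLinearMap = K μ z := by
  ext X
  constructor
  · rintro ⟨_, ⟨Y, hY, rfl⟩, rfl⟩
    exact hY
  · intro hX
    exact ⟨tr μ ι X, ⟨X, hX, rfl⟩, rfl⟩

/-- consistency of types: if one `K z₁` is mapped to the first kind, all are -/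
theorem type_consistent [Nonempty μ] [Nonempty ι] (hn : 2 ≤ Fintype.card ι)
    (g : (μ → Matrix ι ι ℂ) ≃ₗ[ℂ] (μ → Matrix ι ι ℂ))
    (hg : ∀ X, SingTuple X → SingTuple (g X)) {z₁ : ι → ℂ} (hz₁ : z₁ ≠ 0)
    (h₁ : P1 ((K μ z₁).map g.toLinearMap)) {z : ι → ℂ} (hz : z ≠ 0) :
    P1 ((K μ z).map g.toLinearMap) := by
  rcases alternatives_K g hg hz with h | h
  · exact h
  exfalso
  obtain ⟨x, hx, hx2⟩ := h₁
  obtain ⟨y, hy, hy2⟩ := h
  have hinj : Function.Injective (Submodule.map g.toLinearMap) :=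
    Submodule.map_injective_of_injective g.injective
  by_cases h3 : z + z₁ = 0
  · have : z = (-1 : ℂ) • z₁ := by
      rw [neg_one_smul]; exact eq_neg_of_add_eq_zero_left h3
    rw [this, K_smul (by norm_num)] at hy2
    exact K_ne_K' hn hx (hx2.symm.trans hy2)
  · have hle : K μ z₁ ⊓ K μ z ≤ K μ (z + z₁) := by
      intro X hX
      rw [mem_K', ev_add, mem_K'.mp hX.1, mem_K'.mp hX.2, add_zero]
    have hle2 : K μ x ⊓ K' μ y ≤ (K μ (z + z₁)).map g.toLinearMap := by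
      rw [← hx2, ← hy2, ← Submodule.map_inf _ g.injective]
      exact Submodule.map_mono hle
    rcases alternatives_K g hg h3 with ⟨x', hx', h4⟩ | ⟨y', hy', h4⟩
    · rw [h4] at hle2
      obtain ⟨c, rfl⟩ := mem_span_singleton.mp (mem_span_of_inf_le hn hle2)
      have hc : c ≠ 0 := by
        rintro rfl; exact hx' (zero_smul _ _)
      rw [K_smul hc, ← hx2] at h4
      have h5 : K μ (z + z₁) = K μ z₁ := hinj h4
      obtain ⟨d, hd⟩ := mem_span_singleton.mp (mem_span_of_le (μ := μ) hn h5.ge)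
      have h6 : z = (d - 1) • z₁ := by
        rw [sub_smul, one_smul, hd]; abel
      have hd1 : d - 1 ≠ 0 := by
        intro h0; rw [h0, zero_smul] at h6; exact hz h6
      rw [h6, K_smul hd1] at hy2
      exact K_ne_K' hn hx (hx2.symm.trans hy2)
    · -- transpose the inclusion
      rw [h4] at hle2
      have hle3 : K μ y ⊓ K' μ x ≤ K μ y' := by
        intro X hX
        have hXt : tr μ ι X ∈ K μ x ⊓ K' μ y := by
          refine ⟨?_, ⟨X, hX.1, rfl⟩⟩
          obtain ⟨Y, hY, hYX⟩ := hX.2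
          have : tr μ ι X = Y := by rw [← hYX]; rfl
          change tr μ ι X ∈ K μ x
          rw [this]; exact hY
        obtain ⟨Y, hY, hYX⟩ := hle2 hXt
        have : X = Y := (tr μ ι).injective (by rw [← hYX]; rfl)
        rw [this]; exact hY
      obtain ⟨c, rfl⟩ := mem_span_singleton.mp (mem_span_of_inf_le hn hle3)
      have hc : c ≠ 0 := by
        rintro rfl; exact hy' (zero_smul _ _)
      have h4' : (K μ (z + z₁)).map g.toLinearMap = K' μ y := by
        rw [h4, ← map_tr_K, K_smul hc, map_tr_K]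
      rw [← hy2] at h4'
      have h5 : K μ (z + z₁) = K μ z := hinj h4'
      obtain ⟨d, hd⟩ := mem_span_singleton.mp (mem_span_of_le (μ := μ) hn h5.ge)
      have h6 : z₁ = (d - 1) • z := by
        rw [sub_smul, one_smul, hd]; abel
      have hd1 : d - 1 ≠ 0 := by
        intro h0; rw [h0, zero_smul] at h6; exact hz₁ h6
      rw [h6, K_smul hd1] at hx2
      exact K_ne_K' hn hx (hx2.symm.trans hy2)

end Pool.Agent.H44.Sing
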