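import Mathlib
import Pool.Agent.H44.Sing.Preserver

/-!
Structure of the linear bijections preserving singular matrix tuples.
-/

open Matrix Module Submodule

namespace Pool.Agent.H44.Sing

variable {μ ι : Type*} [Fintype μ] [DecidableEq μ] [Fintype ι] [DecidableEq ι]

omit [DecidableEq μ] in
/-- a bijection mapping every `K z` to some `K x` acts as `g₀ ⊗ R`. -/
theorem structure_one [Nonempty μ] [Nonempty ι]
    (g : (μ → Matrix ι ι ℂ) ≃ₗ[ℂ] (μ → Matrix ι ι ℂ))
    (hg : ∀ z : ι → ℂ, z ≠ 0 → P1 ((K μ z).map g.toLinearMap)) :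
    ∃ (R : Matrix ι ι ℂ) (g₀ : (μ → ι → ℂ) →ₗ[ℂ] (μ → ι → ℂ)),
      ∀ (X : μ → Matrix ι ι ℂ) (x : ι → ℂ), ev μ x (g X) = g₀ (ev μ (x ᵥ* R) X) := by
  classical
  have hbasis : ∀ k : ι, (Pi.single k 1 : ι → ℂ) ≠ 0 := by
    intro k h
    have := congrFun h k
    simp at this
  choose φ hφ0 hφ using fun k => hg (Pi.single k 1) (hbasis k)
  set s : ι → ℂ := fun _ => 1 with hs
  have hs0 : s ≠ 0 := by
    intro h
    have := congrFun h (Classical.arbitrary ι)
    simp [hs] at this
  obtain ⟨φ₀, hφ₀0, hφ₀⟩ := hg s hs0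
  have hmem : ∀ (z x : ι → ℂ), (K μ z).map g.toLinearMap = K μ x →
      ∀ X, (ev μ z X = 0 ↔ ev μ x (g X) = 0) := by
    intro z x h X
    rw [← mem_K', ← mem_K', ← h]
    constructor
    · intro hX; exact ⟨X, hX, rfl⟩
    · rintro ⟨Y, hY, hYX⟩
      have : Y = X := g.injective hYX
      rw [← this]; exact hY
  -- the component maps
  set gk : ι → (μ → ι → ℂ) → (μ → ι → ℂ) := fun k u => ev μ (φ k) (g (ins k u)) with hgk
  have hinsk : ∀ (k : ι) (X : μ → Matrix ι ι ℂ),
      ev μ (φ k) (g X) = gk k (ev μ (Pi.single k 1) X) := by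
    intro k X
    have h1 : ev μ (Pi.single k 1) (X - ins k (ev μ (Pi.single k 1) X)) = 0 := by
      rw [map_sub, ev_ins]; simp
    rw [hmem _ _ (hφ k), map_sub, map_sub, sub_eq_zero] at h1
    exact h1
  let k₀ : ι := Classical.arbitrary ι
  set g₀ : (μ → ι → ℂ) →ₗ[ℂ] (μ → ι → ℂ) :=
    { toFun := fun u => ev μ φ₀ (g (ins k₀ u))
      map_add' := by
        intro u v
        have : ins k₀ (u + v) = ins k₀ u + ins k₀ v := by
          funext i; simp [ins, add_vecMulVec]
        rw [this, map_add, map_add]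
      map_smul' := by
        intro c u
        have : ins k₀ (c • u) = c • ins k₀ u := by
          funext i; simp [ins, smul_vecMulVec]
        rw [this, map_smul, map_smul]; rfl } with hg₀
  have hins0 : ∀ X : μ → Matrix ι ι ℂ, ev μ φ₀ (g X) = g₀ (ev μ s X) := by
    intro X
    have h1 : ev μ s (X - ins k₀ (ev μ s X)) = 0 := by
      rw [map_sub, ev_ins]; simp [hs]
    rw [hmem _ _ hφ₀, map_sub, map_sub, sub_eq_zero] at h1
    exact h1
  have hg₀inj : ∀ u, g₀ u = 0 → u = 0 := by
    intro u hu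
    have h1 : ev μ φ₀ (g (ins k₀ u)) = 0 := hu
    rw [← hmem _ _ hφ₀, ev_ins] at h1
    simpa [hs] using h1
  -- the matrix with columns `φ k`
  set Φ : Matrix ι ι ℂ := Matrix.of fun l k => φ k l with hΦ
  have hΦdet : Φ.det ≠ 0 := by
    intro hdet
    obtain ⟨ξ, hξ, hξ2⟩ := exists_vecMul_eq_zero_iff.mpr hdet
    set Y : μ → Matrix ι ι ℂ := fun _ => vecMulVec (fun _ => 1) ξ with hY
    have h1 : ∀ k, ev μ (φ k) Y = 0 := by
      intro k
      funext i
      rw [ev_apply, hY, vecMulVec_mulVec]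
      have : ξ ⬝ᵥ φ k = 0 := congrFun hξ2 k
      rw [this]; simp
    have h2 : ∀ k, ev μ (Pi.single k 1) (g.symm Y) = 0 := by
      intro k
      rw [hmem _ _ (hφ k), LinearEquiv.apply_symm_apply]
      exact h1 k
    have h3 : g.symm Y = 0 := by
      funext i
      ext j k
      have h4 := congrFun (congrFun (h2 k) i) j
      rw [ev_apply, mulVec_single_one] at h4
      exact h4
    have h4 : Y = 0 := by
      have := congrArg g h3
      rwa [LinearEquiv.apply_symm_apply, map_zero] at this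
    obtain ⟨l, hl⟩ := Function.ne_iff.mp hξ
    apply hl
    have := congrFun (congrFun (congrFun h4 (Classical.arbitrary μ)) l) l
    simpa [hY, vecMulVec_apply] using this
  have hΦu : IsUnit Φ.det := isUnit_iff_ne_zero.mpr hΦdet
  set c : ι → ℂ := Φ⁻¹ *ᵥ φ₀ with hc
  have hφ₀sum : φ₀ = ∑ k, c k • φ k := by
    have h1 : Φ *ᵥ c = φ₀ := by
      rw [hc, mulVec_mulVec, mul_nonsing_inv _ hΦu, one_mulVec]
    rw [← h1]
    funext l
    simp [mulVec, dotProduct, hΦ, mul_comm]
  have hck : ∀ k u, g₀ u = c k • gk k u := by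
    intro k u
    have h1 := hins0 (ins k u)
    rw [ev_ins] at h1
    simp only [hs, one_smul] at h1
    rw [← h1, hφ₀sum, ev_sum, Finset.sum_eq_single k]
    · intro l _ hl
      rw [hinsk l, ev_ins]
      have : (Pi.single l 1 : ι → ℂ) k = 0 := by simp [hl.symm]
      rw [this, zero_smul]
      have h0 : gk l 0 = 0 := by
        simp only [hgk]
        have : ins (μ := μ) l 0 = 0 := by funext i; simp [ins]
        rw [this, map_zero, map_zero]
      rw [h0, smul_zero]
    · simp
  have hc0 : ∀ k, c k ≠ 0 := by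
    intro k h0
    have h1 : g₀ (fun _ _ => 1) = 0 := by rw [hck k, h0, zero_smul]
    have h2 := congrFun (congrFun (hg₀inj _ h1) (Classical.arbitrary μ)) k
    simp at h2
  have hgkc : ∀ k u, gk k u = (c k)⁻¹ • g₀ u := by
    intro k u
    rw [hck k, smul_smul, inv_mul_cancel₀ (hc0 k), one_smul]
  refine ⟨Matrix.of fun l k => Φ⁻¹ k l * (c k)⁻¹, g₀, fun X x => ?_⟩
  -- expand x in the basis φ
  have hx : x = ∑ k, (Φ⁻¹ *ᵥ x) k • φ k := by
    have h1 : Φ *ᵥ (Φ⁻¹ *ᵥ x) = x := by
      rw [mulVec_mulVec, mul_nonsing_inv _ hΦu, one_mulVec]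
    conv_lhs => rw [← h1]
    funext l
    simp [mulVec, dotProduct, hΦ, mul_comm]
  have h1 : ev μ x (g X) = ∑ k, ((Φ⁻¹ *ᵥ x) k * (c k)⁻¹) • g₀ (ev μ (Pi.single k 1) X) := by
    conv_lhs => rw [hx]
    rw [ev_sum]
    refine Finset.sum_congr rfl fun k _ => ?_
    rw [hinsk, hgkc, smul_smul]
  rw [h1]
  have h2 : (x ᵥ* Matrix.of fun l k => Φ⁻¹ k l * (c k)⁻¹) =
      ∑ k, ((Φ⁻¹ *ᵥ x) k * (c k)⁻¹) • (Pi.single k 1 : ι → ℂ) := by
    funext k
    simp only [vecMul, dotProduct, of_apply, mulVec, Finset.sum_apply, Pi.smul_apply,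
      smul_eq_mul, Pi.single_apply, mul_ite, mul_one, mul_zero, Finset.sum_ite_eq,
      Finset.mem_univ, if_true]
    rw [Finset.sum_mul]
    refine Finset.sum_congr rfl fun l _ => ?_
    ring
  rw [h2, ev_sum, map_sum]
  refine Finset.sum_congr rfl fun k _ => ?_
  rw [map_smul]

/-- the tensor action on tuples -/
noncomputable def act (P : Matrix μ μ ℂ) (Q R : Matrix ι ι ℂ) :
    (μ → Matrix ι ι ℂ) →ₗ[ℂ] (μ → Matrix ι ι ℂ) where
  toFun X := fun i => ∑ i', P i i' • (Q * X i' * Rᵀ)
  map_add' X Y := by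
    funext i
    simp only [Pi.add_apply, Matrix.mul_add, Matrix.add_mul, smul_add, Finset.sum_add_distrib]
  map_smul' c X := by
    funext i
    simp only [Pi.smul_apply, Matrix.mul_smul, Matrix.smul_mul, RingHom.id_apply,
      Finset.smul_sum]
    refine Finset.sum_congr rfl fun j _ => ?_
    rw [smul_comm]

omit [DecidableEq μ] [DecidableEq ι] in
theorem act_apply (P : Matrix μ μ ℂ) (Q R : Matrix ι ι ℂ) (X : μ → Matrix ι ι ℂ) (i : μ) :
    act P Q R X i = ∑ i', P i i' • (Q * X i' * Rᵀ) := rfl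

omit [DecidableEq μ] [DecidableEq ι] in
theorem act_entry (P : Matrix μ μ ℂ) (Q R : Matrix ι ι ℂ) (X : μ → Matrix ι ι ℂ)
    (i : μ) (j k : ι) :
    act P Q R X i j k = ∑ i', ∑ j', ∑ k', P i i' * Q j j' * R k k' * X i' j' k' := by
  rw [act_apply, Matrix.sum_apply]
  refine Finset.sum_congr rfl fun i' _ => ?_
  rw [Matrix.smul_apply, smul_eq_mul, mul_apply, Finset.mul_sum, Finset.sum_comm]
  refine Finset.sum_congr rfl fun k' _ => ?_
  rw [mul_apply, transpose_apply, Finset.sum_mul, Finset.mul_sum]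
  refine Finset.sum_congr rfl fun j' _ => ?_
  ring

/-- the elementary tensor -/
def elt (i : μ) (j k : ι) : μ → Matrix ι ι ℂ := Pi.single i (Matrix.single j k 1)

omit [Fintype μ] [Fintype ι] in
theorem elt_apply (i i' : μ) (j j' k k' : ι) :
    elt i j k i' j' k' = if i' = i ∧ j' = j ∧ k' = k then (1 : ℂ) else 0 := by
  unfold elt
  by_cases h : i' = i
  · subst h
    rw [Pi.single_eq_same, Matrix.single_apply]
    by_cases h1 : j = j' <;> by_cases h2 : k = k' <;> simp [h1, h2, eq_comm]
  · rw [Pi.single_eq_of_ne h]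
    simp [h]

/-- two linear maps agreeing on elementary tensors are equal -/
theorem ext_elt {f f' : (μ → Matrix ι ι ℂ) →ₗ[ℂ] (μ → Matrix ι ι ℂ)}
    (h : ∀ i j k, f (elt i j k) = f' (elt i j k)) : f = f' := by
  apply LinearMap.pi_ext'
  intro i
  apply Matrix.ext_linearMap
  intro j k
  ext1
  exact h i j k

theorem case_one [Nonempty μ] (hn : 2 ≤ Fintype.card ι)
    (g : (μ → Matrix ι ι ℂ) ≃ₗ[ℂ] (μ → Matrix ι ι ℂ))
    (hsing : ∀ X, SingTuple X → SingTuple (g X))
    (hg : ∀ z : ι → ℂ, z ≠ 0 → P1 ((K μ z).map g.toLinearMap)) :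
    ∃ (P : Matrix μ μ ℂ) (Q R : Matrix ι ι ℂ), ∀ X, g X = act P Q R X := by
  have hne : Nonempty ι := Fintype.card_pos_iff.mp (by omega)
  obtain ⟨R, g₀, hR⟩ := structure_one g hg
  -- the second family is mapped to the second family
  have hK' : ∀ y : ι → ℂ, y ≠ 0 → P2 ((K' μ y).map g.toLinearMap) := by
    intro y hy
    rcases alternatives_K' g hsing hy with ⟨x, hx, h⟩ | h
    · exfalso
      have hle : (K μ (x ᵥ* R)).map g.toLinearMap ≤ K μ x := by
        rintro _ ⟨X, hX, rfl⟩
        rw [mem_K']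
        change ev μ x (g X) = 0
        rw [hR, mem_K'.mp hX, map_zero]
      by_cases hxR : x ᵥ* R = 0
      · have h1 : (fun _ : μ => (1 : Matrix ι ι ℂ)) ∈ K μ x := by
          apply hle
          refine ⟨g.symm (fun _ => 1), ?_, g.apply_symm_apply _⟩
          rw [hxR]
          exact mem_K.mpr fun i => mulVec_zero _
        have h2 := mem_K.mp h1 (Classical.arbitrary μ)
        rw [one_mulVec] at h2
        exact hx h2
      · have h1 : (K μ (x ᵥ* R)).map g.toLinearMap = K μ x := by
          apply Submodule.eq_of_le_of_finrank_eq hle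
          rw [finrank_K hx, ← finrank_K (μ := μ) hxR]
          exact LinearEquiv.finrank_map_eq _ _
        have h2 : K μ (x ᵥ* R) = K' μ y :=
          Submodule.map_injective_of_injective g.injective (h1.trans h.symm)
        exact K_ne_K' hn hxR h2
    · exact h
  set g' : (μ → Matrix ι ι ℂ) ≃ₗ[ℂ] (μ → Matrix ι ι ℂ) :=
    (tr μ ι).trans (g.trans (tr μ ι)) with hg'
  have hg'K : ∀ z : ι → ℂ, z ≠ 0 → P1 ((K μ z).map g'.toLinearMap) := by
    intro z hz
    obtain ⟨y, hy, h⟩ := hK' z hz
    refine ⟨y, hy, ?_⟩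
    have h1 : (K μ z).map g'.toLinearMap =
        (((K μ z).map (tr μ ι).toLinearMap).map g.toLinearMap).map (tr μ ι).toLinearMap := by
      rw [← Submodule.map_comp, ← Submodule.map_comp]; rfl
    rw [h1, map_tr_K, h, map_tr_K']
  obtain ⟨Q, h₀, hQ⟩ := structure_one g' hg'K
  -- entries of the image of elementary tensors, computed in two ways
  have hentry : ∀ (X : μ → Matrix ι ι ℂ) i j k, g X i j k =
      ev μ (Pi.single k 1) (g X) i j := by
    intro X i j k
    rw [ev_apply, mulVec_single_one]; rfl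
  have e1 : ∀ i j k i' j' k', g (elt i' j' k') i j k =
      R k k' * g₀ (Pi.single i' (Pi.single j' 1)) i j := by
    intro i j k i' j' k'
    rw [hentry, hR, single_one_vecMul]
    have h1 : ev μ (R.row k) (elt i' j' k') = R k k' • Pi.single i' (Pi.single j' 1) := by
      funext a b
      rw [ev_apply]
      simp only [mulVec, dotProduct, elt_apply, Pi.smul_apply, smul_eq_mul]
      by_cases ha : a = i'
      · subst ha
        by_cases hb : b = j'
        · subst hb
          simp [row]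
        · simp [hb]
      · simp [ha]
    rw [h1, map_smul]; rfl
  have e2 : ∀ i j k i' j' k', g (elt i' j' k') i j k =
      Q j j' * h₀ (Pi.single i' (Pi.single k' 1)) i k := by
    intro i j k i' j' k'
    have h0 : g (elt i' j' k') i j k = g' (elt i' k' j') i k j := by
      have : tr μ ι (elt i' k' j') = elt i' j' k' := by
        funext a
        ext b c
        rw [tr_apply, transpose_apply, elt_apply, elt_apply]
        simp only [and_comm]
      change _ = (g (tr μ ι (elt i' k' j')) i)ᵀ k j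
      rw [this]; rfl
    have hentry' : g' (elt i' k' j') i k j = ev μ (Pi.single j 1) (g' (elt i' k' j')) i k := by
      rw [ev_apply, mulVec_single_one]; rfl
    rw [h0, hentry', hQ, single_one_vecMul]
    have h1 : ev μ (Q.row j) (elt i' k' j') = Q j j' • Pi.single i' (Pi.single k' 1) := by
      funext a b
      rw [ev_apply]
      simp only [mulVec, dotProduct, elt_apply, Pi.smul_apply, smul_eq_mul]
      by_cases ha : a = i'
      · subst ha
        by_cases hb : b = k'
        · subst hb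
          simp [row]
        · simp [hb]
      · simp [ha]
    rw [h1, map_smul]; rfl
  -- `R` is nonzero
  obtain ⟨k₀, k₀', hk₀⟩ : ∃ k k', R k k' ≠ 0 := by
    by_contra hall
    push Not at hall
    have h1 : g (elt (Classical.arbitrary μ) (Classical.arbitrary ι) (Classical.arbitrary ι)) =
        0 := by
      funext i
      ext j k
      rw [e1, hall]; simp
    have h2 := g.injective (h1.trans (map_zero g).symm)
    have h3 := congrFun (congrFun (congrFun h2 (Classical.arbitrary μ))
      (Classical.arbitrary ι)) (Classical.arbitrary ι)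
    rw [elt_apply] at h3
    simp at h3
  refine ⟨Matrix.of fun i i' => h₀ (Pi.single i' (Pi.single k₀' 1)) i k₀ / R k₀ k₀', Q, R, ?_⟩
  suffices h : g.toLinearMap = act (Matrix.of fun i i' =>
      h₀ (Pi.single i' (Pi.single k₀' 1)) i k₀ / R k₀ k₀') Q R by
    intro X
    exact LinearMap.congr_fun h X
  apply ext_elt
  intro i' j' k'
  funext i
  ext j k
  rw [act_entry, Finset.sum_eq_single i', Finset.sum_eq_single j', Finset.sum_eq_single k']
  · rw [elt_apply]
    simp only [and_self, if_true, mul_one, of_apply]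
    change g (elt i' j' k') i j k = _
    rw [e1]
    have h1 : R k₀ k₀' * g₀ (Pi.single i' (Pi.single j' 1)) i j =
        Q j j' * h₀ (Pi.single i' (Pi.single k₀' 1)) i k₀ := by
      rw [← e1, ← e2]
    field_simp
    linear_combination R k k' * h1
  · intro b _ hb; rw [elt_apply]; simp [hb]
  · simp
  · intro b _ hb
    refine Finset.sum_eq_zero fun c _ => ?_
    rw [elt_apply]; simp [hb]
  · simp
  · intro b _ hb
    refine Finset.sum_eq_zero fun c _ => Finset.sum_eq_zero fun d _ => ?_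
    rw [elt_apply]; simp [hb]
  · simp

omit [DecidableEq μ] [DecidableEq ι] in
theorem tr_act (P : Matrix μ μ ℂ) (Q R : Matrix ι ι ℂ) (X : μ → Matrix ι ι ℂ) :
    tr μ ι (act P Q R X) = act P R Q (tr μ ι X) := by
  funext i
  rw [tr_apply, act_apply, act_apply, transpose_sum]
  refine Finset.sum_congr rfl fun j _ => ?_
  rw [transpose_smul, transpose_mul, transpose_mul, transpose_transpose, tr_apply,
    Matrix.mul_assoc]

/-- **Linear preservers of singular matrix tuples.** -/
theorem preserver [Nonempty μ] (hn : 2 ≤ Fintype.card ι)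
    (g : (μ → Matrix ι ι ℂ) ≃ₗ[ℂ] (μ → Matrix ι ι ℂ))
    (hg : ∀ X, SingTuple X → SingTuple (g X)) :
    ∃ (P : Matrix μ μ ℂ) (Q R : Matrix ι ι ℂ),
      (∀ X, g X = act P Q R X) ∨ (∀ X, g X = act P Q R (tr μ ι X)) := by
  have hne : Nonempty ι := Fintype.card_pos_iff.mp (by omega)
  have hs0 : (fun _ => 1 : ι → ℂ) ≠ 0 := by
    intro h
    have := congrFun h (Classical.arbitrary ι)
    simp at this
  rcases alternatives_K g hg hs0 with h | h
  · obtain ⟨P, Q, R, hPQR⟩ := case_one hn g hg fun z hz => type_consistent hn g hg hs0 h hz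
    exact ⟨P, Q, R, Or.inl hPQR⟩
  · set g' := g.trans (tr μ ι) with hg'
    have hg'2 : ∀ X, SingTuple X → SingTuple (g' X) := fun X hX => (hg X hX).tr
    have h' : P1 ((K μ (fun _ => 1 : ι → ℂ)).map g'.toLinearMap) := by
      obtain ⟨y, hy, hy2⟩ := h
      refine ⟨y, hy, ?_⟩
      have h1 : (K μ (fun _ => 1 : ι → ℂ)).map g'.toLinearMap =
          ((K μ (fun _ => 1 : ι → ℂ)).map g.toLinearMap).map (tr μ ι).toLinearMap := by
        rw [← Submodule.map_comp]; rfl
      rw [h1, hy2, map_tr_K']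
    obtain ⟨P, Q, R, hPQR⟩ := case_one hn g' hg'2 fun z hz => type_consistent hn g' hg'2 hs0 h' hz
    refine ⟨P, R, Q, Or.inr fun X => ?_⟩
    have h1 : tr μ ι (g X) = act P Q R X := hPQR X
    rw [← tr_act, ← h1, tr_tr]

end Pool.Agent.H44.Sing
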