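import Mathlib
import Pool.Agent.H44.Sing.Structure

/-!
Unitary frames, triangular decomposition and the action of triples of matrices.
-/

open Matrix Module Topology Set

namespace Pool.Agent.H44.Sing

/-- Triangular decomposition: every square complex matrix becomes upper triangular after
multiplication by the adjoint of a unitary matrix. -/
theorem exists_unitary_upper {n : ℕ} (M : Matrix (Fin n) (Fin n) ℂ) :
    ∃ U ∈ unitaryGroup (Fin n) ℂ, ∀ i j, j < i → (star U * M) i j = 0 := by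
  have hfin : finrank ℂ (EuclideanSpace ℂ (Fin n)) = Fintype.card (Fin n) := by simp
  set f : Fin n → EuclideanSpace ℂ (Fin n) := fun i => WithLp.toLp 2 (fun r => M r i) with hf
  set b := InnerProductSpace.gramSchmidtOrthonormalBasis hfin f with hb
  have hinner : ∀ (i : Fin n) (v : EuclideanSpace ℂ (Fin n)),
      ∑ r, star (b i r) * v r = inner ℂ (b i) v := by
    intro i v
    rw [PiLp.inner_apply]
    refine Finset.sum_congr rfl fun r _ => ?_
    simp [mul_comm]
  refine ⟨Matrix.of fun r i => b i r, ?_, ?_⟩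
  · rw [mem_unitaryGroup_iff']
    ext i j
    rw [mul_apply]
    have h1 : ∑ r, (star (Matrix.of fun r i => b i r) : Matrix (Fin n) (Fin n) ℂ) i r *
        (Matrix.of fun r i => b i r : Matrix (Fin n) (Fin n) ℂ) r j =
        ∑ r, star (b i r) * (b j) r := rfl
    rw [h1, hinner, orthonormal_iff_ite.mp b.orthonormal i j, Matrix.one_apply]
  · intro i j hij
    rw [mul_apply]
    have h1 : ∑ r, (star (Matrix.of fun r i => b i r) : Matrix (Fin n) (Fin n) ℂ) i r * M r j =
        ∑ r, star (b i r) * (f j) r := rfl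
    rw [h1, hinner]
    exact InnerProductSpace.gramSchmidtOrthonormalBasis_inv_triangular hfin f hij

theorem isCompact_unitary (n : ℕ) :
    IsCompact {U : Matrix (Fin n) (Fin n) ℂ | U ∈ unitaryGroup (Fin n) ℂ} := by
  have h1 : IsCompact (Set.univ.pi fun _ : Fin n => Set.univ.pi fun _ : Fin n =>
      Metric.closedBall (0 : ℂ) 1) :=
    isCompact_univ_pi fun _ => isCompact_univ_pi fun _ => isCompact_closedBall _ _
  refine IsCompact.of_isClosed_subset h1 ?_ ?_
  · have : {U : Matrix (Fin n) (Fin n) ℂ | U ∈ unitaryGroup (Fin n) ℂ} =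
        {U : Matrix (Fin n) (Fin n) ℂ | star U * U = 1} := by
      ext U; exact mem_unitaryGroup_iff'
    rw [this]
    refine isClosed_eq ?_ continuous_const
    exact continuous_id.star.matrix_mul continuous_id
  · intro U hU i _ j _
    rw [mem_closedBall_zero_iff]
    exact entry_norm_bound_of_unitary hU i j

/-- triples of square matrices -/
abbrev St (m n : ℕ) : Type :=
  Matrix (Fin m) (Fin m) ℂ × Matrix (Fin n) (Fin n) ℂ × Matrix (Fin n) (Fin n) ℂ

/-- tuples of square matrices -/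
abbrev Tup (m n : ℕ) : Type := Fin m → Matrix (Fin n) (Fin n) ℂ

variable {m n : ℕ}

/-- action of triples on tuples -/
noncomputable def acts (κ : St m n) : Tup m n →ₗ[ℂ] Tup m n := act κ.1 κ.2.1 κ.2.2

theorem acts_mul (κ κ' : St m n) (X : Tup m n) : acts (κ * κ') X = acts κ (acts κ' X) := by
  funext i
  change act (κ.1 * κ'.1) (κ.2.1 * κ'.2.1) (κ.2.2 * κ'.2.2) X i =
    act κ.1 κ.2.1 κ.2.2 (act κ'.1 κ'.2.1 κ'.2.2 X) i
  rw [act_apply, act_apply]
  simp only [act_apply, Matrix.mul_sum, Matrix.sum_mul, Finset.smul_sum]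
  rw [Finset.sum_comm]
  refine Finset.sum_congr rfl fun j _ => ?_
  rw [mul_apply, Finset.sum_smul]
  refine Finset.sum_congr rfl fun k _ => ?_
  rw [transpose_mul, Matrix.mul_smul, Matrix.smul_mul, smul_smul]
  simp only [Matrix.mul_assoc]

theorem acts_one (X : Tup m n) : acts (1 : St m n) X = X := by
  funext i
  change act 1 1 1 X i = X i
  rw [act_apply, Finset.sum_eq_single i]
  · simp
  · intro b _ hb; simp [Matrix.one_apply_ne' hb]
  · simp

theorem acts_entry (κ : St m n) (X : Tup m n) (i : Fin m) (j k : Fin n) :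
    acts κ X i j k =
      ∑ i', ∑ j', ∑ k', κ.1 i i' * κ.2.1 j j' * κ.2.2 k k' * X i' j' k' :=
  act_entry _ _ _ _ _ _ _

theorem SingTuple.acts {X : Tup m n} (h : SingTuple X) (κ : St m n) :
    SingTuple (acts κ X) := by
  intro c
  have h1 : ∑ i, c i • Sing.acts κ X i =
      κ.2.1 * (∑ i', (∑ i, c i * κ.1 i i') • X i') * κ.2.2ᵀ := by
    rw [Matrix.mul_sum, Matrix.sum_mul]
    have h2 : ∀ i, c i • Sing.acts κ X i =
        ∑ i', (c i * κ.1 i i') • (κ.2.1 * X i' * κ.2.2ᵀ) := by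
      intro i
      change c i • act κ.1 κ.2.1 κ.2.2 X i = _
      rw [act_apply, Finset.smul_sum]
      refine Finset.sum_congr rfl fun i' _ => ?_
      rw [smul_smul]
    simp only [h2]
    rw [Finset.sum_comm]
    refine Finset.sum_congr rfl fun i' _ => ?_
    rw [Matrix.mul_smul, Matrix.smul_mul, Finset.sum_smul]
  rw [h1, det_mul, det_mul, h]
  simp

/-- unitary triples -/
def Uni (m n : ℕ) : Set (St m n) :=
  {κ | κ.1 ∈ unitaryGroup (Fin m) ℂ ∧ κ.2.1 ∈ unitaryGroup (Fin n) ℂ ∧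
    κ.2.2 ∈ unitaryGroup (Fin n) ℂ}

theorem isCompact_Uni (m n : ℕ) : IsCompact (Uni m n) := by
  have h := (isCompact_unitary m).prod ((isCompact_unitary n).prod (isCompact_unitary n))
  exact h

theorem Uni.star_mul {κ : St m n} (h : κ ∈ Uni m n) : star κ * κ = 1 := by
  obtain ⟨h1, h2, h3⟩ := h
  exact Prod.ext (mem_unitaryGroup_iff'.mp h1)
    (Prod.ext (mem_unitaryGroup_iff'.mp h2) (mem_unitaryGroup_iff'.mp h3))

theorem Uni.mul_star {κ : St m n} (h : κ ∈ Uni m n) : κ * star κ = 1 := by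
  obtain ⟨h1, h2, h3⟩ := h
  exact Prod.ext (mem_unitaryGroup_iff.mp h1)
    (Prod.ext (mem_unitaryGroup_iff.mp h2) (mem_unitaryGroup_iff.mp h3))

/-- all entries of the three matrices are bounded -/
def EntryBound (κ : St m n) (C : ℝ) : Prop :=
  (∀ i j, ‖κ.1 i j‖ ≤ C) ∧ (∀ i j, ‖κ.2.1 i j‖ ≤ C) ∧ (∀ i j, ‖κ.2.2 i j‖ ≤ C)

theorem Uni.entryBound {κ : St m n} (h : κ ∈ Uni m n) : EntryBound κ 1 :=
  ⟨entry_norm_bound_of_unitary h.1, entry_norm_bound_of_unitary h.2.1,
    entry_norm_bound_of_unitary h.2.2⟩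

theorem Uni.star_entryBound {κ : St m n} (h : κ ∈ Uni m n) : EntryBound (star κ) 1 := by
  refine ⟨fun i j => ?_, fun i j => ?_, fun i j => ?_⟩
  · change ‖star (κ.1 j i)‖ ≤ 1
    rw [norm_star]; exact (Uni.entryBound h).1 j i
  · change ‖star (κ.2.1 j i)‖ ≤ 1
    rw [norm_star]; exact (Uni.entryBound h).2.1 j i
  · change ‖star (κ.2.2 j i)‖ ≤ 1
    rw [norm_star]; exact (Uni.entryBound h).2.2 j i

/-- bound for the action of a bounded triple -/
theorem acts_bound {κ : St m n} (h : EntryBound κ 1) {X : Tup m n} {ε : ℝ}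
    (hX : ∀ i j k, ‖X i j k‖ ≤ ε) (i : Fin m) (j k : Fin n) :
    ‖acts κ X i j k‖ ≤ m * (n * (n * ε)) := by
  rw [acts_entry]
  refine (norm_sum_le _ _).trans ?_
  refine (Finset.sum_le_sum (g := fun _ => n * (n * ε)) fun i' _ => ?_).trans (by simp)
  refine (norm_sum_le _ _).trans ?_
  refine (Finset.sum_le_sum (g := fun _ => n * ε) fun j' _ => ?_).trans (by simp)
  refine (norm_sum_le _ _).trans ?_
  refine (Finset.sum_le_sum (g := fun _ => ε) fun k' _ => ?_).trans (by simp)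
  rw [norm_mul, norm_mul, norm_mul]
  have h1 := h.1 i i'
  have h2 := h.2.1 j j'
  have h3 := h.2.2 k k'
  have h4 := hX i' j' k'
  calc ‖κ.1 i i'‖ * ‖κ.2.1 j j'‖ * ‖κ.2.2 k k'‖ * ‖X i' j' k'‖ ≤ 1 * 1 * 1 * ‖X i' j' k'‖ := by
        gcongr
    _ ≤ ε := by simpa using h4

/-- upper triangular triples -/
def Upper (b : St m n) : Prop :=
  (∀ i j, j < i → b.1 i j = 0) ∧ (∀ i j, j < i → b.2.1 i j = 0) ∧
    (∀ i j, j < i → b.2.2 i j = 0)

theorem exists_next (γ : St m n) : ∃ κ ∈ Uni m n, Upper (star κ * γ) := by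
  obtain ⟨U₁, h₁, h₁'⟩ := exists_unitary_upper γ.1
  obtain ⟨U₂, h₂, h₂'⟩ := exists_unitary_upper γ.2.1
  obtain ⟨U₃, h₃, h₃'⟩ := exists_unitary_upper γ.2.2
  exact ⟨(U₁, U₂, U₃), ⟨h₁, h₂, h₃⟩, h₁', h₂', h₃'⟩

/-- the action of an upper triangular triple on a homogeneous tuple: support entries are
multiplied by diagonal entries -/
theorem acts_upper_entry {b : St m n} (hb : Upper b) {X : Tup m n}
    (hX : ∀ i j k, X i j k ≠ 0 → (i : ℕ) + j + k = n) {i : Fin m} {j k : Fin n}
    (hijk : (i : ℕ) + j + k = n) :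
    acts b X i j k = b.1 i i * b.2.1 j j * b.2.2 k k * X i j k := by
  rw [acts_entry]
  have hzero : ∀ i' j' k', ¬ (i' = i ∧ j' = j ∧ k' = k) →
      b.1 i i' * b.2.1 j j' * b.2.2 k k' * X i' j' k' = 0 := by
    intro i' j' k' hne
    by_cases h0 : X i' j' k' = 0
    · rw [h0, mul_zero]
    have hs := hX i' j' k' h0
    by_cases h1 : i' < i
    · rw [hb.1 i i' h1]; ring
    by_cases h2 : j' < j
    · rw [hb.2.1 j j' h2]; ring
    by_cases h3 : k' < k
    · rw [hb.2.2 k k' h3]; ring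
    exfalso
    apply hne
    rw [not_lt, Fin.le_def] at h1 h2 h3
    refine ⟨Fin.ext ?_, Fin.ext ?_, Fin.ext ?_⟩ <;> omega
  rw [Finset.sum_eq_single i, Finset.sum_eq_single j, Finset.sum_eq_single k]
  · intro k' _ hk; exact hzero i j k' (fun h => hk h.2.2)
  · simp
  · intro j' _ hj
    exact Finset.sum_eq_zero fun k' _ => hzero i j' k' (fun h => hj h.2.1)
  · simp
  · intro i' _ hi
    exact Finset.sum_eq_zero fun j' _ => Finset.sum_eq_zero fun k' _ =>
      hzero i' j' k' (fun h => hi h.1)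
  · simp

end Pool.Agent.H44.Sing
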