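import Mathlib

/-!
Growth of products of upper triangular matrices whose diagonal products grow almost
exponentially with prescribed rates.
-/

open Filter Topology Set Matrix Finset

namespace Pool.Agent.H44.Sing

/-- Scalar affine recursion: choose the initial value so that the solution does not grow
faster than the inhomogeneity. -/
theorem scalar_recursion {β z : ℕ → ℂ} {x w ε C C₂ : ℝ} (hε : 0 < ε) (hC : 0 < C)
    (hlow : ∀ k : ℕ, C⁻¹ * Real.exp (k * (x - ε)) ≤ ‖∏ s ∈ range k, β s‖)
    (hup : ∀ k : ℕ, ‖∏ s ∈ range k, β s‖ ≤ C * Real.exp (k * (x + ε)))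
    (hz : ∀ k : ℕ, ‖z k‖ ≤ C₂ * Real.exp (k * w)) :
    ∃ u : ℕ → ℂ, (∀ k, u (k + 1) = β k * u k + z k) ∧
      ∃ C₃ : ℝ, ∀ k : ℕ, ‖u k‖ ≤ C₃ * Real.exp (k * (w + 3 * ε)) := by
  set P : ℕ → ℂ := fun k => ∏ s ∈ range k, β s with hP
  have hP0 : ∀ k, P k ≠ 0 := by
    intro k h
    have := hlow k
    rw [show ∏ s ∈ range k, β s = P k from rfl, h, norm_zero] at this
    have : 0 < C⁻¹ * Real.exp (k * (x - ε)) := by positivity
    linarith
  have hPs : ∀ k, P (k + 1) = β k * P k := by
    intro k; simp only [hP]; rw [prod_range_succ, mul_comm]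
  have hC₂ : 0 ≤ C₂ := by
    have := (norm_nonneg _).trans (hz 0)
    simpa using this
  set q : ℕ → ℂ := fun s => z s / P (s + 1) with hq
  set C' : ℝ := C₂ * C * Real.exp (-(x - ε)) with hC'
  set θ : ℝ := w - x + ε with hθ
  have hC'0 : 0 ≤ C' := by positivity
  have hqb : ∀ s : ℕ, ‖q s‖ ≤ C' * Real.exp (s * θ) := by
    intro s
    simp only [hq]
    rw [norm_div]
    have h1 := hlow (s + 1)
    have h2 : 0 < C⁻¹ * Real.exp ((s + 1 : ℕ) * (x - ε)) := by positivity
    have h3 : ‖z s‖ / ‖P (s + 1)‖ ≤ (C₂ * Real.exp (s * w)) /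
        (C⁻¹ * Real.exp ((s + 1 : ℕ) * (x - ε))) := by
      exact div_le_div₀ (by positivity) (hz s) h2 h1
    refine h3.trans (le_of_eq ?_)
    rw [hC', hθ, div_eq_iff h2.ne']
    have : Real.exp (s * w) = Real.exp (-(x - ε)) * Real.exp (s * (w - x + ε)) *
        Real.exp ((s + 1 : ℕ) * (x - ε)) := by
      rw [← Real.exp_add, ← Real.exp_add]
      congr 1; push_cast; ring
    rw [this]
    field_simp
  -- general form of the solution
  have key : ∀ c : ℂ, ∀ k, P (k + 1) * (c + ∑ s ∈ range (k + 1), q s) =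
      β k * (P k * (c + ∑ s ∈ range k, q s)) + z k := by
    intro c k
    rw [sum_range_succ, hPs]
    have : β k * P k * q k = z k := by
      simp only [hq]
      rw [← hPs]
      field_simp [hP0 (k + 1)]
    linear_combination this
  rcases lt_or_ge θ 0 with hθ0 | hθ0
  · -- decaying case
    have hr : Real.exp θ < 1 := Real.exp_lt_one_iff.mpr hθ0
    have hexp : ∀ s : ℕ, Real.exp (s * θ) = Real.exp θ ^ s := fun s => Real.exp_nat_mul _ _
    have hsum : Summable q := by
      refine Summable.of_norm_bounded (g := fun s : ℕ => C' * Real.exp θ ^ s) ?_ ?_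
      · exact (summable_geometric_of_lt_one (Real.exp_pos _).le hr).mul_left _
      · intro s; rw [← hexp]; exact hqb s
    refine ⟨fun k => P k * (-(∑' s, q s) + ∑ s ∈ range k, q s), key _, 
      C * (C' * (1 - Real.exp θ)⁻¹), fun k => ?_⟩
    have h1 : -(∑' s, q s) + ∑ s ∈ range k, q s = -∑' s, q (s + k) := by
      rw [← hsum.sum_add_tsum_nat_add k]; ring
    change ‖P k * (-(∑' s, q s) + ∑ s ∈ range k, q s)‖ ≤ _
    rw [h1, norm_mul, norm_neg]
    have h2 : ‖∑' s, q (s + k)‖ ≤ C' * (1 - Real.exp θ)⁻¹ * Real.exp (k * θ) := by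
      have hs2 : HasSum (fun s : ℕ => C' * Real.exp θ ^ s * Real.exp (k * θ))
          (C' * (1 - Real.exp θ)⁻¹ * Real.exp (k * θ)) :=
        ((hasSum_geometric_of_lt_one (Real.exp_pos _).le hr).mul_left _).mul_right _
      refine tsum_of_norm_bounded hs2 fun s => ?_
      refine (hqb _).trans (le_of_eq ?_)
      rw [hexp, hexp, pow_add]
      ring
    have h3 := hup k
    have h4 : 0 ≤ C' * (1 - Real.exp θ)⁻¹ := by
      have : 0 ≤ (1 - Real.exp θ)⁻¹ := inv_nonneg.mpr (by linarith)
      positivity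
    calc ‖P k‖ * ‖∑' s, q (s + k)‖ ≤ (C * Real.exp (k * (x + ε))) *
        (C' * (1 - Real.exp θ)⁻¹ * Real.exp (k * θ)) :=
          mul_le_mul h3 h2 (norm_nonneg _) (by positivity)
      _ = C * (C' * (1 - Real.exp θ)⁻¹) * Real.exp (k * (w + 2 * ε)) := by
          have : Real.exp (k * (w + 2 * ε)) = Real.exp (k * (x + ε)) * Real.exp (k * θ) := by
            rw [← Real.exp_add]; congr 1; rw [hθ]; ring
          rw [this]; ring
      _ ≤ C * (C' * (1 - Real.exp θ)⁻¹) * Real.exp (k * (w + 3 * ε)) := by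
          gcongr
          linarith
  · -- growing case
    refine ⟨fun k => P k * (0 + ∑ s ∈ range k, q s), key _, C * (C' * ε⁻¹), fun k => ?_⟩
    change ‖P k * (0 + ∑ s ∈ range k, q s)‖ ≤ _
    rw [zero_add, norm_mul]
    have h2 : ‖∑ s ∈ range k, q s‖ ≤ C' * ε⁻¹ * Real.exp (k * (θ + ε)) := by
      calc ‖∑ s ∈ range k, q s‖ ≤ ∑ s ∈ range k, ‖q s‖ := norm_sum_le _ _
        _ ≤ ∑ s ∈ range k, C' * Real.exp (k * θ) := by
            refine Finset.sum_le_sum fun s hs => (hqb s).trans ?_
            have : (s : ℝ) ≤ k := by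
              exact_mod_cast (Finset.mem_range.mp hs).le
            gcongr
        _ = k * (C' * Real.exp (k * θ)) := by simp
        _ ≤ (ε⁻¹ * Real.exp (k * ε)) * (C' * Real.exp (k * θ)) := by
            gcongr
            have := Real.add_one_le_exp (k * ε)
            rw [inv_mul_eq_div, le_div_iff₀ hε]
            linarith
        _ = C' * ε⁻¹ * Real.exp (k * (θ + ε)) := by
            have : Real.exp (k * (θ + ε)) = Real.exp (k * ε) * Real.exp (k * θ) := by
              rw [← Real.exp_add]; congr 1; ring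
            rw [this]; ring
    calc ‖P k‖ * ‖∑ s ∈ range k, q s‖ ≤ (C * Real.exp (k * (x + ε))) *
        (C' * ε⁻¹ * Real.exp (k * (θ + ε))) :=
          mul_le_mul (hup k) h2 (norm_nonneg _) (by positivity)
      _ = C * (C' * ε⁻¹) * Real.exp (k * (w + 3 * ε)) := by
          have : Real.exp (k * (w + 3 * ε)) =
              Real.exp (k * (x + ε)) * Real.exp (k * (θ + ε)) := by
            rw [← Real.exp_add]; congr 1; rw [hθ]; ring
          rw [this]; ring

/-- Growth lemma for products of upper triangular matrices. -/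
theorem triangular_growth : ∀ (N : ℕ) (b : ℕ → Matrix (Fin N) (Fin N) ℂ)
    (_ : ∀ k i j, j < i → b k i j = 0) (Cb : ℝ) (_ : ∀ k i j, ‖b k i j‖ ≤ Cb)
    (x : Fin N → ℝ) (ε : ℝ) (_ : 0 < ε)
    (_ : ∀ i, ∃ C : ℝ, 0 < C ∧
      (∀ k : ℕ, C⁻¹ * Real.exp (k * (x i - ε)) ≤ ‖∏ s ∈ range k, b s i i‖) ∧
      (∀ k : ℕ, ‖∏ s ∈ range k, b s i i‖ ≤ C * Real.exp (k * (x i + ε)))) (j : Fin N),
    ∃ y : ℕ → Fin N → ℂ, (∀ k, y (k + 1) = b k *ᵥ y k) ∧ y 0 j = 1 ∧
      (∀ i, j < i → y 0 i = 0) ∧
      ∃ C : ℝ, ∀ (k : ℕ) i, ‖y k i‖ ≤ C * Real.exp (k * (x j + (3 * N + 1) * ε)) := by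
  intro N
  induction N with
  | zero => intro b _ Cb _ x ε _ _ j; exact j.elim0
  | succ N ih =>
    intro b hb Cb hCb x ε hε hd j
    have hCb0 : 0 ≤ Cb := (norm_nonneg _).trans (hCb 0 0 0)
    refine Fin.cases ?_ (fun j' => ?_) j
    · -- first basis vector
      obtain ⟨C, hC, -, hup⟩ := hd 0
      refine ⟨fun k => Pi.single 0 (∏ s ∈ range k, b s 0 0), ?_, ?_, ?_, C, ?_⟩
      · intro k
        ext i
        rw [mulVec_single]
        simp only [Matrix.col_apply, Pi.smul_apply,
          MulOpposite.smul_eq_mul_unop, MulOpposite.unop_op]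
        refine Fin.cases ?_ (fun i' => ?_) i
        · simp [prod_range_succ, mul_comm]
        · rw [hb k (Fin.succ i') 0 (Fin.succ_pos i')]
          simp
      · simp
      · intro i hi
        simp [hi.ne']
      · intro k i
        have h1 : ‖(Pi.single 0 (∏ s ∈ range k, b s 0 0) : Fin (N + 1) → ℂ) i‖ ≤
            ‖∏ s ∈ range k, b s 0 0‖ := by
          rw [Pi.single_apply]
          split_ifs
          · exact le_rfl
          · rw [norm_zero]; exact norm_nonneg _
        refine h1.trans ((hup k).trans ?_)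
        gcongr
        have : (0 : ℝ) ≤ N := Nat.cast_nonneg _
        push_cast
        nlinarith
    · obtain ⟨y', hy', hy1, hy0, C', hyC⟩ := ih (fun k => (b k).submatrix Fin.succ Fin.succ)
        (fun k i j hij => hb k _ _ (Fin.succ_lt_succ_iff.mpr hij)) Cb
        (fun k i j => hCb k _ _) (fun i => x i.succ) ε hε (fun i => hd i.succ) j'
      obtain ⟨C, hC, hlow, hup⟩ := hd 0
      have hz : ∀ k : ℕ, ‖∑ i : Fin N, b k 0 i.succ * y' k i‖ ≤
          (N * (Cb * C')) * Real.exp (k * (x j'.succ + (3 * N + 1) * ε)) := by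
        intro k
        refine (norm_sum_le _ _).trans ?_
        refine (Finset.sum_le_sum (g := fun _ => Cb * (C' *
          Real.exp (k * (x j'.succ + (3 * N + 1) * ε)))) fun i _ => ?_).trans (le_of_eq ?_)
        · rw [norm_mul]
          exact mul_le_mul (hCb _ _ _) (hyC k i) (norm_nonneg _) hCb0
        · simp; ring
      obtain ⟨u, hu, C₃, hC₃⟩ := scalar_recursion hε hC hlow hup hz
      have hC₃0 : 0 ≤ C₃ := by
        have := (norm_nonneg _).trans (hC₃ 0)
        simpa using this
      refine ⟨fun k => Fin.cons (u k) (y' k), ?_, ?_, ?_, max C₃ C', ?_⟩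
      · intro k
        ext i
        refine Fin.cases ?_ (fun i' => ?_) i
        · simp only [Fin.cons_zero, mulVec, dotProduct]
          rw [Fin.sum_univ_succ, hu]
          simp
        · simp only [Fin.cons_succ, mulVec, dotProduct]
          rw [Fin.sum_univ_succ, hb k (Fin.succ i') 0 (Fin.succ_pos i'), hy']
          simp [mulVec, dotProduct]
      · simpa using hy1
      · intro i hi
        refine Fin.cases (fun h => ?_) (fun i' h => ?_) i hi
        · exact absurd h (by simp)
        · simpa using hy0 i' (Fin.succ_lt_succ_iff.mp h)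
      · intro k i
        refine Fin.cases ?_ (fun i' => ?_) i
        · simp only [Fin.cons_zero]
          refine (hC₃ k).trans ?_
          have h1 : (k : ℝ) * (x j'.succ + (3 * N + 1) * ε + 3 * ε) =
              k * (x j'.succ + (3 * (N + 1 : ℕ) + 1) * ε) := by push_cast; ring
          rw [h1]
          gcongr
          exact le_max_left _ _
        · simp only [Fin.cons_succ]
          refine (hyC k i').trans ?_
          have hmax : C' ≤ max C₃ C' := le_max_right _ _
          have hmax0 : 0 ≤ max C₃ C' := hC₃0.trans (le_max_left _ _)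
          refine (mul_le_mul_of_nonneg_right hmax (Real.exp_pos _).le).trans ?_
          refine mul_le_mul_of_nonneg_left ?_ hmax0
          apply Real.exp_le_exp.mpr
          refine mul_le_mul_of_nonneg_left ?_ (Nat.cast_nonneg _)
          push_cast
          nlinarith

end Pool.Agent.H44.Sing
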