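import Mathlib
import Pool.Agent.H44.Sing.Frames
import Pool.Agent.H44.Sing.Exposed
import Pool.Agent.H44.Sing.Triangular

/-!
The dynamical argument: if every singular tuple can be contracted by a semigroup of triples
then so can some nonsingular tuple.
-/

open Matrix Module Topology Set Filter

namespace Pool.Agent.H44.Sing

/-- from eventual logarithmic control to control with a constant -/
theorem exists_const {a : ℕ → ℝ} (ha : ∀ k, 0 < a k) {x ε : ℝ}
    (h : ∀ᶠ k : ℕ in atTop, |Real.log (a k) - k * x| ≤ ε * k) :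
    ∃ C : ℝ, 0 < C ∧ (∀ k : ℕ, C⁻¹ * Real.exp (k * (x - ε)) ≤ a k) ∧
      (∀ k : ℕ, a k ≤ C * Real.exp (k * (x + ε))) := by
  obtain ⟨k₀, hk₀⟩ := eventually_atTop.mp h
  set C : ℝ := 1 + ∑ k ∈ Finset.range k₀, (a k / Real.exp (k * (x + ε)) +
    Real.exp (k * (x - ε)) / a k) with hC
  have hpos : ∀ k, 0 ≤ a k / Real.exp (k * (x + ε)) + Real.exp (k * (x - ε)) / a k := by
    intro k
    have := ha k
    positivity
  have hC1 : 1 ≤ C := by
    rw [hC]
    have : 0 ≤ ∑ k ∈ Finset.range k₀, (a k / Real.exp (k * (x + ε)) +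
      Real.exp (k * (x - ε)) / a k) := Finset.sum_nonneg fun k _ => hpos k
    linarith
  have hCpos : 0 < C := by linarith
  refine ⟨C, hCpos, fun k => ?_, fun k => ?_⟩
  · rcases lt_or_ge k k₀ with hk | hk
    · have h1 : Real.exp (k * (x - ε)) / a k ≤ C := by
        have h2 := Finset.single_le_sum (f := fun k : ℕ => a k / Real.exp (k * (x + ε)) +
          Real.exp (k * (x - ε)) / a k) (fun k _ => hpos k) (Finset.mem_range.mpr hk)
        have h3 : 0 ≤ a k / Real.exp (k * (x + ε)) := by have := ha k; positivity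
        linarith
      rw [div_le_iff₀ (ha k)] at h1
      rw [inv_mul_le_iff₀ hCpos]
      exact h1
    · have h1 := (abs_le.mp (hk₀ k hk)).1
      have h2 : Real.exp (k * (x - ε)) ≤ a k := by
        rw [← Real.le_log_iff_exp_le (ha k)]
        linarith
      have h3 : C⁻¹ ≤ 1 := inv_le_one_of_one_le₀ hC1
      calc C⁻¹ * Real.exp (k * (x - ε)) ≤ 1 * Real.exp (k * (x - ε)) := by gcongr
        _ ≤ a k := by rw [one_mul]; exact h2
  · rcases lt_or_ge k k₀ with hk | hk
    · have h1 : a k / Real.exp (k * (x + ε)) ≤ C := by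
        have h2 := Finset.single_le_sum (f := fun k : ℕ => a k / Real.exp (k * (x + ε)) +
          Real.exp (k * (x - ε)) / a k) (fun k _ => hpos k) (Finset.mem_range.mpr hk)
        have h3 : 0 ≤ Real.exp (k * (x - ε)) / a k := by have := ha k; positivity
        linarith
      rwa [div_le_iff₀ (Real.exp_pos _)] at h1
    · have h1 := (abs_le.mp (hk₀ k hk)).2
      have h2 : a k ≤ Real.exp (k * (x + ε)) := by
        rw [← Real.log_le_iff_le_exp (ha k)]
        linarith
      calc a k ≤ 1 * Real.exp (k * (x + ε)) := by rw [one_mul]; exact h2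
        _ ≤ C * Real.exp (k * (x + ε)) := by gcongr

variable {m n : ℕ}

theorem continuous_acts_entry {Y : Type*} [TopologicalSpace Y] {F : Y → St m n}
    (hF : Continuous F) (X : Tup m n) (i : Fin m) (j k : Fin n) :
    Continuous fun y => acts (F y) X i j k := by
  simp only [acts_entry]
  refine continuous_finsetSum _ fun i' _ => continuous_finsetSum _ fun j' _ =>
    continuous_finsetSum _ fun k' _ => ?_
  have h1 : Continuous fun y => (F y).1 i i' := (continuous_fst.comp hF).matrix_elem i i'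
  have h2 : Continuous fun y => (F y).2.1 j j' :=
    (continuous_fst.comp (continuous_snd.comp hF)).matrix_elem j j'
  have h3 : Continuous fun y => (F y).2.2 k k' :=
    (continuous_snd.comp (continuous_snd.comp hF)).matrix_elem k k'
  exact ((h1.mul h2).mul h3).mul continuous_const

theorem exists_finite_family {Γ : Set (St m n)}
    (hnull : ∀ X : Tup m n, SingTuple X → ∀ ε : ℝ, 0 < ε →
      ∃ γ ∈ Γ, ∀ i j k, ‖acts γ X i j k‖ < ε)
    {v₀ : Tup m n} (hv : SingTuple v₀) {ε₀ : ℝ} (hε₀ : 0 < ε₀) :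
    ∃ Φ : Set (St m n), Φ.Finite ∧ Φ ⊆ Γ ∧
      ∀ κ ∈ Uni m n, ∃ γ ∈ Φ, ∀ i j k, ‖acts (γ * κ) v₀ i j k‖ ≤ ε₀ := by
  set O : Γ → Set (St m n) := fun γ => {κ | ∀ i j k, ‖acts (γ.1 * κ) v₀ i j k‖ < ε₀} with hO
  have hopen : ∀ γ, IsOpen (O γ) := by
    intro γ
    simp only [hO]
    have : {κ : St m n | ∀ i j k, ‖acts (γ.1 * κ) v₀ i j k‖ < ε₀} =
        ⋂ i, ⋂ j, ⋂ k, {κ : St m n | ‖acts (γ.1 * κ) v₀ i j k‖ < ε₀} := by
      ext κ; simp
    rw [this]
    refine isOpen_iInter_of_finite fun i => isOpen_iInter_of_finite fun j =>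
      isOpen_iInter_of_finite fun k => ?_
    exact isOpen_lt (continuous_acts_entry (continuous_const.mul continuous_id) v₀ i j k).norm
      continuous_const
  have hcover : Uni m n ⊆ ⋃ γ, O γ := by
    intro κ _
    obtain ⟨γ, hγ, h⟩ := hnull (acts κ v₀) (hv.acts κ) ε₀ hε₀
    refine mem_iUnion.mpr ⟨⟨γ, hγ⟩, fun i j k => ?_⟩
    rw [acts_mul]
    exact h i j k
  obtain ⟨t, ht⟩ := (isCompact_Uni m n).elim_finite_subcover O hopen hcover
  refine ⟨Subtype.val '' (t : Set Γ), t.finite_toSet.image _, ?_, fun κ hκ => ?_⟩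
  · rintro _ ⟨γ, _, rfl⟩; exact γ.2
  · obtain ⟨γ, hγ, h⟩ := mem_iUnion₂.mp (ht hκ)
    exact ⟨γ.1, ⟨γ, hγ, rfl⟩, fun i j k => (h i j k).le⟩

/-- the label of an edge -/
def lab (p q : St m n × St m n) : St m n := star q.1 * (p.2 * p.1)

/-- admissible edges -/
def Edge (Φ : Set (St m n)) (v₀ : Tup m n) (ε₀ : ℝ) (p q : St m n × St m n) : Prop :=
  p.1 ∈ Uni m n ∧ p.2 ∈ Φ ∧ Upper (lab p q) ∧ ∀ i j k, ‖acts (p.2 * p.1) v₀ i j k‖ ≤ ε₀

/-- the path space -/
def PathSpace (Φ : Set (St m n)) (v₀ : Tup m n) (ε₀ : ℝ) : Set (ℕ → St m n × St m n) :=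
  {ω | ∀ k, Edge Φ v₀ ε₀ (ω k) (ω (k + 1))}

theorem isClosed_Upper {Y : Type*} [TopologicalSpace Y] {F : Y → St m n}
    (hF : Continuous F) : IsClosed {y | Upper (F y)} := by
  have h1 : ∀ i i', Continuous fun y => (F y).1 i i' := fun i i' =>
    (continuous_fst.comp hF).matrix_elem i i'
  have h2 : ∀ j j', Continuous fun y => (F y).2.1 j j' := fun j j' =>
    (continuous_fst.comp (continuous_snd.comp hF)).matrix_elem j j'
  have h3 : ∀ k k', Continuous fun y => (F y).2.2 k k' := fun k k' =>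
    (continuous_snd.comp (continuous_snd.comp hF)).matrix_elem k k'
  unfold Upper
  refine IsClosed.and ?_ (IsClosed.and ?_ ?_)
  · have : {y | ∀ i j, j < i → (F y).1 i j = 0} =
        ⋂ i, ⋂ j, ⋂ (_ : j < i), {y | (F y).1 i j = 0} := by ext y; simp
    rw [this]
    exact isClosed_iInter fun i => isClosed_iInter fun j => isClosed_iInter fun _ =>
      isClosed_eq (h1 i j) continuous_const
  · have : {y | ∀ i j, j < i → (F y).2.1 i j = 0} =
        ⋂ i, ⋂ j, ⋂ (_ : j < i), {y | (F y).2.1 i j = 0} := by ext y; simp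
    rw [this]
    exact isClosed_iInter fun i => isClosed_iInter fun j => isClosed_iInter fun _ =>
      isClosed_eq (h2 i j) continuous_const
  · have : {y | ∀ i j, j < i → (F y).2.2 i j = 0} =
        ⋂ i, ⋂ j, ⋂ (_ : j < i), {y | (F y).2.2 i j = 0} := by ext y; simp
    rw [this]
    exact isClosed_iInter fun i => isClosed_iInter fun j => isClosed_iInter fun _ =>
      isClosed_eq (h3 i j) continuous_const

theorem continuous_lab (k : ℕ) :
    Continuous fun ω : ℕ → St m n × St m n => lab (ω k) (ω (k + 1)) := by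
  unfold lab
  have h1 : Continuous fun ω : ℕ → St m n × St m n => (ω k).1 :=
    continuous_fst.comp (continuous_apply k)
  have h2 : Continuous fun ω : ℕ → St m n × St m n => (ω k).2 :=
    continuous_snd.comp (continuous_apply k)
  have h3 : Continuous fun ω : ℕ → St m n × St m n => (ω (k + 1)).1 :=
    continuous_fst.comp (continuous_apply (k + 1))
  exact h3.star.mul (h2.mul h1)

theorem isCompact_PathSpace {Φ : Set (St m n)} (hΦ : Φ.Finite) (v₀ : Tup m n) (ε₀ : ℝ) :
    IsCompact (PathSpace Φ v₀ ε₀) := by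
  have h1 : IsCompact (Set.univ.pi fun _ : ℕ => (Uni m n) ×ˢ Φ) :=
    isCompact_univ_pi fun _ => (isCompact_Uni m n).prod hΦ.isCompact
  refine h1.of_isClosed_subset ?_ ?_
  · have : PathSpace Φ v₀ ε₀ = ⋂ k, {ω | Edge Φ v₀ ε₀ (ω k) (ω (k + 1))} := by
      ext ω; simp [PathSpace]
    rw [this]
    refine isClosed_iInter fun k => ?_
    unfold Edge
    have c1 : Continuous fun ω : ℕ → St m n × St m n => (ω k).1 :=
      continuous_fst.comp (continuous_apply k)
    have c2 : Continuous fun ω : ℕ → St m n × St m n => (ω k).2 :=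
      continuous_snd.comp (continuous_apply k)
    refine IsClosed.and ((isCompact_Uni m n).isClosed.preimage c1)
      (IsClosed.and (hΦ.isClosed.preimage c2) (IsClosed.and (isClosed_Upper (continuous_lab k)) ?_))
    have : {ω : ℕ → St m n × St m n | ∀ i j l, ‖acts ((ω k).2 * (ω k).1) v₀ i j l‖ ≤ ε₀} =
        ⋂ i, ⋂ j, ⋂ l, {ω : ℕ → St m n × St m n |
          ‖acts ((ω k).2 * (ω k).1) v₀ i j l‖ ≤ ε₀} := by ext ω; simp
    rw [this]
    exact isClosed_iInter fun i => isClosed_iInter fun j => isClosed_iInter fun l =>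
      isClosed_le (continuous_acts_entry (c2.mul c1) v₀ i j l).norm continuous_const
  · intro ω hω k _
    exact ⟨(hω k).1, (hω k).2.1⟩

theorem nonempty_PathSpace {Φ : Set (St m n)} {v₀ : Tup m n} {ε₀ : ℝ}
    (h : ∀ κ ∈ Uni m n, ∃ γ ∈ Φ, ∀ i j k, ‖acts (γ * κ) v₀ i j k‖ ≤ ε₀) :
    (PathSpace Φ v₀ ε₀).Nonempty := by
  choose! G hG hG2 using h
  choose N hN hN2 using fun γ : St m n => exists_next γ
  have h1 : (1 : St m n) ∈ Uni m n := ⟨one_mem _, one_mem _, one_mem _⟩
  set s : ℕ → St m n := fun k => Nat.rec (1 : St m n) (fun _ κ => N (G κ * κ)) k with hs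
  have hsU : ∀ k, s k ∈ Uni m n := by
    intro k
    cases k with
    | zero => exact h1
    | succ k => exact hN _
  refine ⟨fun k => (s k, G (s k)), fun k => ⟨hsU k, hG _ (hsU k), ?_, hG2 _ (hsU k)⟩⟩
  exact hN2 (G (s k) * s k)

/-- the shift on the path space -/
def shift {Φ : Set (St m n)} {v₀ : Tup m n} {ε₀ : ℝ} (ω : PathSpace Φ v₀ ε₀) :
    PathSpace Φ v₀ ε₀ := ⟨fun k => ω.1 (k + 1), fun k => ω.2 (k + 1)⟩

theorem continuous_shift {Φ : Set (St m n)} {v₀ : Tup m n} {ε₀ : ℝ} :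
    Continuous (shift : PathSpace Φ v₀ ε₀ → PathSpace Φ v₀ ε₀) := by
  refine Continuous.subtype_mk ?_ _
  exact continuous_pi fun k => (continuous_apply (k + 1)).comp continuous_subtype_val

theorem shift_iterate {Φ : Set (St m n)} {v₀ : Tup m n} {ε₀ : ℝ} (ω : PathSpace Φ v₀ ε₀)
    (s k : ℕ) : (shift^[s] ω).1 k = ω.1 (k + s) := by
  induction s generalizing ω with
  | zero => rfl
  | succ s ih =>
    rw [Function.iterate_succ_apply, ih]
    change ω.1 (k + s + 1) = _
    rfl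

/-- diagonal entries of a triple -/
def dg (b : St m n) : Fin m ⊕ (Fin n ⊕ Fin n) → ℂ :=
  Sum.elim (fun i => b.1 i i) (Sum.elim (fun j => b.2.1 j j) (fun l => b.2.2 l l))

theorem continuous_dg (t : Fin m ⊕ (Fin n ⊕ Fin n)) :
    Continuous fun b : St m n => dg b t := by
  rcases t with i | j | l
  · exact continuous_fst.matrix_elem i i
  · exact (continuous_fst.comp continuous_snd).matrix_elem j j
  · exact (continuous_snd.comp continuous_snd).matrix_elem l l

theorem diag_ne_zero {N : ℕ} {M : Matrix (Fin N) (Fin N) ℂ} (hM : ∀ i j, j < i → M i j = 0)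
    (hdet : M.det ≠ 0) (i : Fin N) : M i i ≠ 0 := by
  have h1 : M.IsUpperTriangular := fun i j hij => hM i j hij
  rw [det_of_isUpperTriangular h1] at hdet
  exact Finset.prod_ne_zero_iff.mp hdet i (Finset.mem_univ i)

theorem det_unitary_ne_zero {N : ℕ} {U : Matrix (Fin N) (Fin N) ℂ}
    (h : U ∈ unitaryGroup (Fin N) ℂ) : U.det ≠ 0 ∧ (star U).det ≠ 0 := by
  have h1 := congrArg Matrix.det (mem_unitaryGroup_iff.mp h)
  rw [det_mul, det_one] at h1
  exact ⟨left_ne_zero_of_mul_eq_one h1, right_ne_zero_of_mul_eq_one h1⟩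

/-- nonvanishing of all three determinants -/
def Inv3 (b : St m n) : Prop := b.1.det ≠ 0 ∧ b.2.1.det ≠ 0 ∧ b.2.2.det ≠ 0

theorem Inv3.mul {b b' : St m n} (h : Inv3 b) (h' : Inv3 b') : Inv3 (b * b') := by
  refine ⟨?_, ?_, ?_⟩
  · change (b.1 * b'.1).det ≠ 0
    rw [det_mul]; exact mul_ne_zero h.1 h'.1
  · change (b.2.1 * b'.2.1).det ≠ 0
    rw [det_mul]; exact mul_ne_zero h.2.1 h'.2.1
  · change (b.2.2 * b'.2.2).det ≠ 0
    rw [det_mul]; exact mul_ne_zero h.2.2 h'.2.2

theorem Inv3_uni {κ : St m n} (h : κ ∈ Uni m n) : Inv3 κ ∧ Inv3 (star κ) :=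
  ⟨⟨(det_unitary_ne_zero h.1).1, (det_unitary_ne_zero h.2.1).1, (det_unitary_ne_zero h.2.2).1⟩,
    ⟨(det_unitary_ne_zero h.1).2, (det_unitary_ne_zero h.2.1).2, (det_unitary_ne_zero h.2.2).2⟩⟩

theorem dg_ne_zero {b : St m n} (h : Inv3 b) (hu : Upper b) (t : Fin m ⊕ (Fin n ⊕ Fin n)) :
    dg b t ≠ 0 := by
  rcases t with i | j | l
  · exact diag_ne_zero hu.1 h.1 i
  · exact diag_ne_zero hu.2.1 h.2.1 j
  · exact diag_ne_zero hu.2.2 h.2.2 l

/-- invertible triples have inverses -/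
theorem Inv3.exists_inv {b : St m n} (h : Inv3 b) : ∃ b' : St m n, b' * b = 1 := by
  refine ⟨(b.1⁻¹, b.2.1⁻¹, b.2.2⁻¹), ?_⟩
  refine Prod.ext ?_ (Prod.ext ?_ ?_)
  · exact nonsing_inv_mul _ (isUnit_iff_ne_zero.mpr h.1)
  · exact nonsing_inv_mul _ (isUnit_iff_ne_zero.mpr h.2.1)
  · exact nonsing_inv_mul _ (isUnit_iff_ne_zero.mpr h.2.2)

/-- one step estimate: on the support of `v₀` the diagonal entries contract -/
theorem step_estimate {Φ : Set (St m n)} {v₀ : Tup m n} {ε₀ : ℝ}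
    (hsupp : ∀ i j k, v₀ i j k ≠ 0 → (i : ℕ) + j + k = n)
    (hnorm : ∀ i j k, v₀ i j k ≠ 0 → ‖v₀ i j k‖ = 1)
    {p q : St m n × St m n} (hq : q.1 ∈ Uni m n) (hpq : Edge Φ v₀ ε₀ p q)
    {i : Fin m} {j k : Fin n} (hijk : v₀ i j k ≠ 0) :
    ‖(lab p q).1 i i‖ * ‖(lab p q).2.1 j j‖ * ‖(lab p q).2.2 k k‖ ≤ m * (n * (n * ε₀)) := by
  have h1 := acts_upper_entry hpq.2.2.1 hsupp (hsupp i j k hijk)
  have h2 : acts (lab p q) v₀ = acts (star q.1) (acts (p.2 * p.1) v₀) := by
    unfold lab; rw [acts_mul]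
  have h3 := acts_bound (Uni.star_entryBound hq) hpq.2.2.2 i j k
  rw [← h2, h1, norm_mul, norm_mul, norm_mul, hnorm i j k hijk, mul_one] at h3
  exact h3

end Pool.Agent.H44.Sing
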