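import Mathlib
import Pool.Agent.H44.Sing.Dynamics

/-!
The contraction theorem.
-/

open Matrix Module Topology Set Filter

namespace Pool.Agent.H44.Sing

variable {m n : ℕ}

theorem exists_entry_bound {Y : Type*} [TopologicalSpace Y] [CompactSpace Y] {N : ℕ}
    {F : Y → Matrix (Fin N) (Fin N) ℂ} (hF : Continuous F) :
    ∃ C : ℝ, ∀ y i j, ‖F y i j‖ ≤ C := by
  have h1 : ∀ p : Fin N × Fin N, ∃ C : ℝ, ∀ y, ‖F y p.1 p.2‖ ≤ C := by
    intro p
    obtain ⟨C, hC⟩ := (isCompact_range (hF.matrix_elem p.1 p.2).norm).bddAbove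
    exact ⟨C, fun y => hC ⟨y, rfl⟩⟩
  choose C hC using h1
  obtain ⟨M, hM⟩ := (Set.finite_range C).bddAbove
  exact ⟨M, fun y i j => (hC (i, j) y).trans (hM ⟨(i, j), rfl⟩)⟩

theorem contract {Γ : Set (St m n)} (hone : (1 : St m n) ∈ Γ)
    (hmul : ∀ γ ∈ Γ, ∀ γ' ∈ Γ, γ * γ' ∈ Γ) (hdet : ∀ γ ∈ Γ, Inv3 γ)
    (hnull : ∀ X : Tup m n, SingTuple X → ∀ ε : ℝ, 0 < ε →
      ∃ γ ∈ Γ, ∀ i j k, ‖acts γ X i j k‖ < ε)
    {v₀ w₀ : Tup m n} (hv : SingTuple v₀)
    (hsupp : ∀ i j k, v₀ i j k ≠ 0 → (i : ℕ) + j + k = n)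
    (hnorm : ∀ i j k, v₀ i j k ≠ 0 → ‖v₀ i j k‖ = 1)
    (hw : ∀ i j k, w₀ i j k ≠ 0 → v₀ i j k ≠ 0) (hw1 : ∀ i j k, ‖w₀ i j k‖ ≤ 1)
    (hwns : ¬ SingTuple w₀) :
    ∃ w : Tup m n, ¬ SingTuple w ∧ ∀ ε : ℝ, 0 < ε → ∃ γ ∈ Γ, ∀ i j k, ‖acts γ w i j k‖ < ε := by
  -- constants
  set ε₀ : ℝ := Real.exp (-1) / (m * (n * n) + 1) with hε₀def
  have hε₀ : 0 < ε₀ := by positivity
  have hε₀2 : (m : ℝ) * (n * (n * ε₀)) ≤ Real.exp (-1) := by
    have h1 : (m : ℝ) * (n * (n * ε₀)) = (m * (n * n)) * Real.exp (-1) / (m * (n * n) + 1) := by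
      rw [hε₀def]; ring
    rw [h1, div_le_iff₀ (by positivity)]
    have := Real.exp_pos (-1)
    nlinarith
  obtain ⟨Φ, hΦfin, hΦΓ, hΦ⟩ := exists_finite_family hnull hv hε₀
  have hcomp : CompactSpace (PathSpace Φ v₀ ε₀) :=
    isCompact_iff_compactSpace.mp (isCompact_PathSpace hΦfin v₀ ε₀)
  have hne : Nonempty (PathSpace Φ v₀ ε₀) := (nonempty_PathSpace hΦ).to_subtype
  have hinv : ∀ (ω : PathSpace Φ v₀ ε₀) (s : ℕ), Inv3 (lab (ω.1 s) (ω.1 (s + 1))) := by
    intro ω s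
    exact (Inv3_uni (ω.2 (s + 1)).1).2.mul ((hdet _ (hΦΓ (ω.2 s).2.1)).mul
      (Inv3_uni (ω.2 s).1).1)
  have hupper : ∀ (ω : PathSpace Φ v₀ ε₀) (s : ℕ), Upper (lab (ω.1 s) (ω.1 (s + 1))) :=
    fun ω s => (ω.2 s).2.2.1
  have hclab : Continuous fun ω : PathSpace Φ v₀ ε₀ => lab (ω.1 0) (ω.1 (0 + 1)) :=
    (continuous_lab 0).comp continuous_subtype_val
  -- the observable
  set f : PathSpace Φ v₀ ε₀ → EuclideanSpace ℝ (Fin m ⊕ (Fin n ⊕ Fin n)) := fun ω =>
    WithLp.toLp 2 fun t => Real.log ‖dg (lab (ω.1 0) (ω.1 (0 + 1))) t‖ with hf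
  have hfc : Continuous f := by
    refine (PiLp.continuous_toLp 2 _).comp (continuous_pi fun t => ?_)
    refine Continuous.log ((continuous_dg t).comp hclab).norm fun ω => ?_
    exact norm_ne_zero_iff.mpr (dg_ne_zero (hinv ω 0) (hupper ω 0) t)
  set ε : ℝ := 1 / (2 * (3 * m + 6 * n + 6)) with hεdef
  have hε : 0 < ε := by positivity
  have hε2 : (3 * m + 6 * n + 6 : ℝ) * ε = 1 / 2 := by
    rw [hεdef]; field_simp
  obtain ⟨ω, v, hreg⟩ := exists_regular_orbit (continuous_shift (Φ := Φ) (v₀ := v₀) (ε₀ := ε₀))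
    hfc hε
  -- the labels along the orbit
  set b : ℕ → St m n := fun s => lab (ω.1 s) (ω.1 (s + 1)) with hb
  have hbirk : ∀ (k : ℕ) t, (birkhoffSum shift f k ω) t =
      ∑ s ∈ Finset.range k, Real.log ‖dg (b s) t‖ := by
    intro k t
    unfold birkhoffSum
    rw [WithLp.ofLp_sum, Finset.sum_apply]
    refine Finset.sum_congr rfl fun s _ => ?_
    change Real.log ‖dg (lab ((shift^[s] ω).1 0) ((shift^[s] ω).1 (0 + 1))) t‖ = _
    rw [shift_iterate, shift_iterate]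
    simp only [hb, Nat.zero_add]
    rw [Nat.add_comm 1 s]
  have hdgne : ∀ s t, dg (b s) t ≠ 0 := fun s t => dg_ne_zero (hinv ω s) (hupper ω s) t
  have hcoord : ∀ t, ∀ᶠ k : ℕ in atTop,
      |∑ s ∈ Finset.range k, Real.log ‖dg (b s) t‖ - k * v t| ≤ ε * k := by
    intro t
    filter_upwards [hreg] with k hk
    have h1 := PiLp.norm_apply_le (birkhoffSum shift f k ω - (k : ℝ) • v) t
    refine le_trans (le_of_eq ?_) (h1.trans hk)
    rw [Real.norm_eq_abs]
    congr 1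
    rw [← hbirk]
    rfl
  have hprod : ∀ t (k : ℕ), ∑ s ∈ Finset.range k, Real.log ‖dg (b s) t‖ =
      Real.log ‖∏ s ∈ Finset.range k, dg (b s) t‖ := by
    intro t k
    rw [norm_prod, Real.log_prod]
    intro s _
    exact norm_ne_zero_iff.mpr (hdgne s t)
  have hconst : ∀ t, ∃ C : ℝ, 0 < C ∧
      (∀ k : ℕ, C⁻¹ * Real.exp (k * (v t - ε)) ≤ ‖∏ s ∈ Finset.range k, dg (b s) t‖) ∧
      (∀ k : ℕ, ‖∏ s ∈ Finset.range k, dg (b s) t‖ ≤ C * Real.exp (k * (v t + ε))) := by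
    intro t
    apply exists_const
    · intro k
      exact norm_pos_iff.mpr (Finset.prod_ne_zero_iff.mpr fun s _ => hdgne s t)
    · filter_upwards [hcoord t] with k hk
      rw [← hprod]
      exact hk
  -- the rates on the support
  have hrate : ∀ i j l, v₀ i j l ≠ 0 →
      v (Sum.inl i) + v (Sum.inr (Sum.inl j)) + v (Sum.inr (Sum.inr l)) ≤ -1 + 3 * ε := by
    intro i j l hijl
    have hstep : ∀ s, Real.log ‖dg (b s) (Sum.inl i)‖ + Real.log ‖dg (b s) (Sum.inr (Sum.inl j))‖ +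
        Real.log ‖dg (b s) (Sum.inr (Sum.inr l))‖ ≤ -1 := by
      intro s
      have h1 := step_estimate hsupp hnorm (ω.2 (s + 1)).1 (ω.2 s) hijl
      have h2 : ‖dg (b s) (Sum.inl i)‖ * ‖dg (b s) (Sum.inr (Sum.inl j))‖ *
          ‖dg (b s) (Sum.inr (Sum.inr l))‖ ≤ Real.exp (-1) := h1.trans hε₀2
      have n1 := norm_pos_iff.mpr (hdgne s (Sum.inl i))
      have n2 := norm_pos_iff.mpr (hdgne s (Sum.inr (Sum.inl j)))
      have n3 := norm_pos_iff.mpr (hdgne s (Sum.inr (Sum.inr l)))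
      rw [← Real.log_mul n1.ne' n2.ne', ← Real.log_mul (mul_pos n1 n2).ne' n3.ne',
        Real.log_le_iff_le_exp (by positivity)]
      exact h2
    obtain ⟨k, h1, h2, h3, hk⟩ := ((hcoord (Sum.inl i)).and ((hcoord (Sum.inr (Sum.inl j))).and
      ((hcoord (Sum.inr (Sum.inr l))).and (eventually_gt_atTop 0)))).exists
    have hk0 : (0 : ℝ) < k := by exact_mod_cast hk
    have h4 : ∑ s ∈ Finset.range k, (Real.log ‖dg (b s) (Sum.inl i)‖ +
        Real.log ‖dg (b s) (Sum.inr (Sum.inl j))‖ + Real.log ‖dg (b s) (Sum.inr (Sum.inr l))‖) ≤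
        -(k : ℝ) := by
      refine (Finset.sum_le_sum fun s _ => hstep s).trans (le_of_eq ?_)
      simp
    rw [Finset.sum_add_distrib, Finset.sum_add_distrib] at h4
    have h5 := (abs_le.mp h1).1
    have h6 := (abs_le.mp h2).1
    have h7 := (abs_le.mp h3).1
    have h8 : (k : ℝ) * (v (Sum.inl i) + v (Sum.inr (Sum.inl j)) + v (Sum.inr (Sum.inr l))) ≤
        k * (-1 + 3 * ε) := by linarith
    exact le_of_mul_le_mul_left h8 hk0
  -- entry bounds
  have hlabs : ∀ s, ∃ ω' : PathSpace Φ v₀ ε₀, lab (ω'.1 0) (ω'.1 (0 + 1)) = b s := by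
    intro s
    refine ⟨shift^[s] ω, ?_⟩
    rw [shift_iterate, shift_iterate]
    simp only [hb, Nat.zero_add]
    rw [Nat.add_comm 1 s]
  obtain ⟨CA, hCA⟩ := exists_entry_bound (continuous_fst.comp hclab)
  obtain ⟨CB, hCB⟩ := exists_entry_bound (continuous_fst.comp (continuous_snd.comp hclab))
  obtain ⟨CC, hCC⟩ := exists_entry_bound (continuous_snd.comp (continuous_snd.comp hclab))
  have hgA := triangular_growth m (fun k => (b k).1) (fun k => (hupper ω k).1) CA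
    (fun k i j => by obtain ⟨ω', h⟩ := hlabs k; rw [← h]; exact hCA ω' i j)
    (fun i => v (Sum.inl i)) ε hε (fun i => hconst (Sum.inl i))
  have hgB := triangular_growth n (fun k => (b k).2.1) (fun k => (hupper ω k).2.1) CB
    (fun k i j => by obtain ⟨ω', h⟩ := hlabs k; rw [← h]; exact hCB ω' i j)
    (fun i => v (Sum.inr (Sum.inl i))) ε hε (fun i => hconst (Sum.inr (Sum.inl i)))
  have hgC := triangular_growth n (fun k => (b k).2.2) (fun k => (hupper ω k).2.2) CC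
    (fun k i j => by obtain ⟨ω', h⟩ := hlabs k; rw [← h]; exact hCC ω' i j)
    (fun i => v (Sum.inr (Sum.inr i))) ε hε (fun i => hconst (Sum.inr (Sum.inr i)))
  choose yA hyA1 hyA2 hyA3 CyA hyA4 using hgA
  choose yB hyB1 hyB2 hyB3 CyB hyB4 using hgB
  choose yC hyC1 hyC2 hyC3 CyC hyC4 using hgC
  set Y : ℕ → St m n := fun k => (Matrix.of fun p j => yA j k p, Matrix.of fun p j => yB j k p,
    Matrix.of fun p j => yC j k p) with hY
  have hYstep : ∀ k, Y (k + 1) = b k * Y k := by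
    intro k
    refine Prod.ext ?_ (Prod.ext ?_ ?_)
    · ext p j
      change yA j (k + 1) p = _
      rw [hyA1]; rfl
    · ext p j
      change yB j (k + 1) p = _
      rw [hyB1]; rfl
    · ext p j
      change yC j (k + 1) p = _
      rw [hyC1]; rfl
  have hY0 : Inv3 (Y 0) := by
    refine ⟨?_, ?_, ?_⟩
    · have h1 : (Y 0).1.IsUpperTriangular := fun i j hij => hyA3 j i hij
      have h2 : ∏ i, (Y 0).1 i i = 1 := Finset.prod_eq_one fun i _ => hyA2 i
      rw [det_of_isUpperTriangular h1, h2]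
      exact one_ne_zero
    · have h1 : (Y 0).2.1.IsUpperTriangular := fun i j hij => hyB3 j i hij
      have h2 : ∏ i, (Y 0).2.1 i i = 1 := Finset.prod_eq_one fun i _ => hyB2 i
      rw [det_of_isUpperTriangular h1, h2]
      exact one_ne_zero
    · have h1 : (Y 0).2.2.IsUpperTriangular := fun i j hij => hyC3 j i hij
      have h2 : ∏ i, (Y 0).2.2 i i = 1 := Finset.prod_eq_one fun i _ => hyC2 i
      rw [det_of_isUpperTriangular h1, h2]
      exact one_ne_zero
  have hpath : ∀ k, ∃ γ ∈ Γ, (ω.1 k).1 * Y k = γ * ((ω.1 0).1 * Y 0) := by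
    intro k
    induction k with
    | zero => exact ⟨1, hone, (one_mul _).symm⟩
    | succ k ih =>
      obtain ⟨γ, hγ, h⟩ := ih
      refine ⟨(ω.1 k).2 * γ, hmul _ (hΦΓ (ω.2 k).2.1) _ hγ, ?_⟩
      rw [hYstep, mul_assoc, ← h, ← mul_assoc, ← mul_assoc]
      congr 1
      change (ω.1 (k + 1)).1 * (star (ω.1 (k + 1)).1 * ((ω.1 k).2 * (ω.1 k).1)) = _
      rw [← mul_assoc, Uni.mul_star (ω.2 (k + 1)).1, one_mul]
  have hinv0 : Inv3 ((ω.1 0).1 * Y 0) := (Inv3_uni (ω.2 0).1).1.mul hY0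
  refine ⟨acts ((ω.1 0).1 * Y 0) w₀, ?_, ?_⟩
  · intro hs
    obtain ⟨b', hb'⟩ := hinv0.exists_inv
    have := hs.acts b'
    rw [← acts_mul, hb', acts_one] at this
    exact hwns this
  · -- contraction
    obtain ⟨DA, hDA⟩ := (Set.finite_range CyA).bddAbove
    obtain ⟨DB, hDB⟩ := (Set.finite_range CyB).bddAbove
    obtain ⟨DC, hDC⟩ := (Set.finite_range CyC).bddAbove
    have hA0 : ∀ j, 0 ≤ CyA j := fun j => by
      have := (norm_nonneg _).trans (hyA4 j 0 j); simpa using this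
    have hB0 : ∀ j, 0 ≤ CyB j := fun j => by
      have := (norm_nonneg _).trans (hyB4 j 0 j); simpa using this
    have hC0 : ∀ j, 0 ≤ CyC j := fun j => by
      have := (norm_nonneg _).trans (hyC4 j 0 j); simpa using this
    have hterm : ∀ (k : ℕ) i j l (p : Fin m) (q r : Fin n),
        ‖(Y k).1 p i * (Y k).2.1 q j * (Y k).2.2 r l * w₀ i j l‖ ≤
          |DA| * |DB| * |DC| * Real.exp (k * (-(1 / 2))) := by
      intro k i j l p q r
      by_cases h0 : w₀ i j l = 0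
      · rw [h0, mul_zero, norm_zero]; positivity
      have hr := hrate i j l (hw i j l h0)
      rw [norm_mul, norm_mul, norm_mul]
      have h1 : ‖(Y k).1 p i‖ ≤ |DA| * Real.exp (k * (v (Sum.inl i) + (3 * m + 1) * ε)) := by
        refine (hyA4 i k p).trans ?_
        gcongr
        exact (hDA ⟨i, rfl⟩).trans (le_abs_self _)
      have h2 : ‖(Y k).2.1 q j‖ ≤ |DB| *
          Real.exp (k * (v (Sum.inr (Sum.inl j)) + (3 * n + 1) * ε)) := by
        refine (hyB4 j k q).trans ?_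
        gcongr
        exact (hDB ⟨j, rfl⟩).trans (le_abs_self _)
      have h3 : ‖(Y k).2.2 r l‖ ≤ |DC| *
          Real.exp (k * (v (Sum.inr (Sum.inr l)) + (3 * n + 1) * ε)) := by
        refine (hyC4 l k r).trans ?_
        gcongr
        exact (hDC ⟨l, rfl⟩).trans (le_abs_self _)
      calc ‖(Y k).1 p i‖ * ‖(Y k).2.1 q j‖ * ‖(Y k).2.2 r l‖ * ‖w₀ i j l‖
          ≤ (|DA| * Real.exp (k * (v (Sum.inl i) + (3 * m + 1) * ε))) *
            (|DB| * Real.exp (k * (v (Sum.inr (Sum.inl j)) + (3 * n + 1) * ε))) *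
            (|DC| * Real.exp (k * (v (Sum.inr (Sum.inr l)) + (3 * n + 1) * ε))) * 1 := by
            gcongr
            exact hw1 i j l
        _ = |DA| * |DB| * |DC| * Real.exp (k * (v (Sum.inl i) + v (Sum.inr (Sum.inl j)) +
            v (Sum.inr (Sum.inr l)) + (3 * m + 6 * n + 3) * ε)) := by
            have : Real.exp (k * (v (Sum.inl i) + v (Sum.inr (Sum.inl j)) +
                v (Sum.inr (Sum.inr l)) + (3 * m + 6 * n + 3) * ε)) =
                Real.exp (k * (v (Sum.inl i) + (3 * m + 1) * ε)) *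
                Real.exp (k * (v (Sum.inr (Sum.inl j)) + (3 * n + 1) * ε)) *
                Real.exp (k * (v (Sum.inr (Sum.inr l)) + (3 * n + 1) * ε)) := by
              rw [← Real.exp_add, ← Real.exp_add]; congr 1; ring
            rw [this]; ring
        _ ≤ |DA| * |DB| * |DC| * Real.exp (k * (-(1 / 2))) := by
            gcongr
            nlinarith
    set D : ℝ := |DA| * |DB| * |DC| with hD
    have hYw : ∀ (k : ℕ) p q r, ‖acts (Y k) w₀ p q r‖ ≤
        m * (n * (n * (D * Real.exp (k * (-(1 / 2)))))) := by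
      intro k p q r
      rw [acts_entry]
      refine (norm_sum_le _ _).trans ?_
      refine (Finset.sum_le_sum (g := fun _ => n * (n * (D * Real.exp (k * (-(1 / 2))))))
        fun i' _ => ?_).trans (by simp)
      refine (norm_sum_le _ _).trans ?_
      refine (Finset.sum_le_sum (g := fun _ => n * (D * Real.exp (k * (-(1 / 2)))))
        fun j' _ => ?_).trans (by simp)
      refine (norm_sum_le _ _).trans ?_
      refine (Finset.sum_le_sum (g := fun _ => D * Real.exp (k * (-(1 / 2))))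
        fun k' _ => ?_).trans (by simp)
      exact hterm k i' j' k' p q r
    intro ε' hε'
    have hlim : Tendsto (fun k : ℕ => (m : ℝ) * (n * (n * (m * (n * (n * (D *
        Real.exp (k * (-(1 / 2)))))))))) atTop (nhds 0) := by
      have h1 : Tendsto (fun k : ℕ => Real.exp (k * (-(1 / 2)))) atTop (nhds 0) := by
        apply Real.tendsto_exp_atBot.comp
        apply Filter.Tendsto.atTop_mul_const_of_neg (by norm_num)
        exact tendsto_natCast_atTop_atTop
      have h2 := ((((((h1.const_mul D).const_mul (n : ℝ)).const_mul (n : ℝ)).const_mul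
        (m : ℝ)).const_mul (n : ℝ)).const_mul (n : ℝ)).const_mul (m : ℝ)
      simpa using h2
    obtain ⟨k, hk⟩ := ((tendsto_order.1 hlim).2 ε' hε').exists
    obtain ⟨γ, hγ, h⟩ := hpath k
    refine ⟨γ, hγ, fun i j l => ?_⟩
    rw [← acts_mul, ← h, acts_mul]
    exact (acts_bound (Uni.entryBound (ω.2 k).1) (hYw k) i j l).trans_lt hk

end Pool.Agent.H44.Sing
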