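import Mathlib
import Pool.Agent.H44.Sing.Contract

/-!
Explicit homogeneous singular tuple with a perfect matching in its support.
-/

open Matrix Module Topology Set Filter

namespace Pool.Agent.H44.Sing

section

variable (m n : ℕ)

/-- first index of the matching -/
def fI (hm : 3 ≤ m) (j : Fin n) : Fin m :=
  if (j : ℕ) = 0 then ⟨2, by omega⟩ else if (j : ℕ) = 1 then ⟨0, by omega⟩ else ⟨1, by omega⟩

/-- third index of the matching -/
def fK (hn : 3 ≤ n) (j : Fin n) : Fin n :=
  if (j : ℕ) = 0 then ⟨n - 2, by omega⟩ else if (j : ℕ) = 1 then ⟨n - 1, by omega⟩ else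
    if (j : ℕ) = 2 then ⟨n - 3, by omega⟩ else ⟨n - 1 - j, by omega⟩

/-- first index of the second family -/
def fI' (hm : 3 ≤ m) (j : Fin n) : Fin m :=
  if (j : ℕ) = 0 then ⟨1, by omega⟩ else if (j : ℕ) = 1 then ⟨2, by omega⟩ else ⟨0, by omega⟩

/-- third index of the second family -/
def fK' (hn : 3 ≤ n) (j : Fin n) : Fin n :=
  if (j : ℕ) = 0 then ⟨n - 1, by omega⟩ else if (j : ℕ) = 1 then ⟨n - 3, by omega⟩ else
    ⟨n - 2, by omega⟩

/-- the nonsingular tuple -/
def wTup (hm : 3 ≤ m) (hn : 3 ≤ n) : Tup m n := fun i => Matrix.of fun j k =>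
  if i = fI m n hm j ∧ k = fK n hn j then 1 else 0

/-- the second part -/
def uTup (hm : 3 ≤ m) (hn : 3 ≤ n) : Tup m n := fun i => Matrix.of fun j k =>
  if (j : ℕ) < 3 ∧ i = fI' m n hm j ∧ k = fK' n hn j then 1 else 0

/-- the singular tuple -/
def vTup (hm : 3 ≤ m) (hn : 3 ≤ n) : Tup m n := fun i => wTup m n hm hn i - uTup m n hm hn i

end

variable {m n : ℕ} (hm : 3 ≤ m) (hn : 3 ≤ n)

theorem not_both (i : Fin m) (j k : Fin n) (h : i = fI m n hm j ∧ k = fK n hn j) :
    ¬ ((j : ℕ) < 3 ∧ i = fI' m n hm j ∧ k = fK' n hn j) := by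
  rintro ⟨hj, h1, h2⟩
  rw [h.1] at h1
  unfold fI fI' at h1
  split_ifs at h1 <;> simp at h1

theorem vTup_apply (i : Fin m) (j k : Fin n) : vTup m n hm hn i j k =
    (if i = fI m n hm j ∧ k = fK n hn j then 1 else 0) -
    (if (j : ℕ) < 3 ∧ i = fI' m n hm j ∧ k = fK' n hn j then 1 else 0) := rfl

theorem vTup_norm (i : Fin m) (j k : Fin n) (h : vTup m n hm hn i j k ≠ 0) :
    ‖vTup m n hm hn i j k‖ = 1 := by
  rw [vTup_apply] at h ⊢
  split_ifs at h ⊢ with h1 h2
  · exact absurd h2 (not_both hm hn i j k h1)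
  · simp
  · simp
  · simp at h

theorem vTup_supp (i : Fin m) (j k : Fin n) (h : vTup m n hm hn i j k ≠ 0) :
    (i : ℕ) + j + k = n := by
  rw [vTup_apply] at h
  by_cases h1 : i = fI m n hm j ∧ k = fK n hn j
  · rw [h1.1, h1.2]
    unfold fI fK
    have := j.2
    split_ifs <;> simp only <;> omega
  · by_cases h2 : (j : ℕ) < 3 ∧ i = fI' m n hm j ∧ k = fK' n hn j
    · rw [h2.2.1, h2.2.2]
      unfold fI' fK'
      have := j.2
      split_ifs <;> simp only <;> omega
    · rw [if_neg h1, if_neg h2, sub_zero] at h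
      exact absurd rfl h

theorem wTup_supp (i : Fin m) (j k : Fin n) (h : wTup m n hm hn i j k ≠ 0) :
    vTup m n hm hn i j k ≠ 0 := by
  have h' : (if i = fI m n hm j ∧ k = fK n hn j then (1 : ℂ) else 0) ≠ 0 := h
  have h1 : i = fI m n hm j ∧ k = fK n hn j := by
    by_contra hc
    rw [if_neg hc] at h'
    exact h' rfl
  rw [vTup_apply, if_pos h1, if_neg (not_both hm hn i j k h1), sub_zero]
  exact one_ne_zero

theorem wTup_norm (i : Fin m) (j k : Fin n) : ‖wTup m n hm hn i j k‖ ≤ 1 := by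
  change ‖(if i = fI m n hm j ∧ k = fK n hn j then (1 : ℂ) else 0)‖ ≤ 1
  split_ifs <;> simp

theorem wTup_mulVec (c : Fin m → ℂ) (z : Fin n → ℂ) (j : Fin n) :
    ((∑ i, c i • wTup m n hm hn i) *ᵥ z) j = c (fI m n hm j) * z (fK n hn j) := by
  rw [sum_mulVec, Finset.sum_apply, Finset.sum_eq_single (fI m n hm j)]
  · rw [smul_mulVec, Pi.smul_apply, smul_eq_mul]
    congr 1
    change ∑ k, (if fI m n hm j = fI m n hm j ∧ k = fK n hn j then (1 : ℂ) else 0) * z k = _
    rw [Finset.sum_eq_single (fK n hn j)]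
    · simp
    · intro b _ hb; simp [hb]
    · simp
  · intro b _ hb
    rw [smul_mulVec, Pi.smul_apply, smul_eq_mul]
    have : (wTup m n hm hn b *ᵥ z) j = 0 := by
      change ∑ k, (if b = fI m n hm j ∧ k = fK n hn j then (1 : ℂ) else 0) * z k = _
      refine Finset.sum_eq_zero fun k _ => ?_
      simp [hb]
    rw [this, mul_zero]
  · simp

theorem uTup_mulVec (c : Fin m → ℂ) (z : Fin n → ℂ) (j : Fin n) :
    ((∑ i, c i • uTup m n hm hn i) *ᵥ z) j =
      if (j : ℕ) < 3 then c (fI' m n hm j) * z (fK' n hn j) else 0 := by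
  by_cases hj : (j : ℕ) < 3
  · rw [if_pos hj, sum_mulVec, Finset.sum_apply, Finset.sum_eq_single (fI' m n hm j)]
    · rw [smul_mulVec, Pi.smul_apply, smul_eq_mul]
      congr 1
      change ∑ k, (if (j : ℕ) < 3 ∧ fI' m n hm j = fI' m n hm j ∧ k = fK' n hn j
        then (1 : ℂ) else 0) * z k = _
      rw [Finset.sum_eq_single (fK' n hn j)]
      · simp [hj]
      · intro b _ hb; simp [hb]
      · simp
    · intro b _ hb
      rw [smul_mulVec, Pi.smul_apply, smul_eq_mul]
      have : (uTup m n hm hn b *ᵥ z) j = 0 := by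
        change ∑ k, (if (j : ℕ) < 3 ∧ b = fI' m n hm j ∧ k = fK' n hn j then (1 : ℂ) else 0) *
          z k = _
        refine Finset.sum_eq_zero fun k _ => ?_
        simp [hb]
      rw [this, mul_zero]
    · simp
  · rw [if_neg hj, sum_mulVec, Finset.sum_apply]
    refine Finset.sum_eq_zero fun b _ => ?_
    rw [smul_mulVec, Pi.smul_apply, smul_eq_mul]
    have : (uTup m n hm hn b *ᵥ z) j = 0 := by
      change ∑ k, (if (j : ℕ) < 3 ∧ b = fI' m n hm j ∧ k = fK' n hn j then (1 : ℂ) else 0) *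
        z k = _
      refine Finset.sum_eq_zero fun k _ => ?_
      simp [hj]
    rw [this, mul_zero]

theorem wTup_not_sing : ¬ SingTuple (wTup m n hm hn) := by
  intro h
  obtain ⟨z, hz, hz2⟩ := exists_mulVec_eq_zero_iff.mpr (h fun _ => 1)
  apply hz
  have h1 : ∀ j, z (fK n hn j) = 0 := by
    intro j
    have := congrFun hz2 j
    rw [wTup_mulVec hm hn (fun _ => 1) z j] at this
    simpa using this
  funext k
  have hk := k.2
  by_cases h2 : (k : ℕ) = n - 2
  · have := h1 ⟨0, by omega⟩
    have e : fK n hn ⟨0, by omega⟩ = k := Fin.ext (by simp [fK, h2])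
    rw [e] at this; exact this
  by_cases h3 : (k : ℕ) = n - 1
  · have := h1 ⟨1, by omega⟩
    have e : fK n hn ⟨1, by omega⟩ = k := Fin.ext (by simp [fK, h3])
    rw [e] at this; exact this
  by_cases h4 : (k : ℕ) = n - 3
  · have := h1 ⟨2, by omega⟩
    have e : fK n hn ⟨2, by omega⟩ = k := Fin.ext (by simp [fK, h4])
    rw [e] at this; exact this
  · have := h1 ⟨n - 1 - k, by omega⟩
    have e : fK n hn ⟨n - 1 - k, by omega⟩ = k := by
      apply Fin.ext
      unfold fK
      simp only
      rw [if_neg (by omega), if_neg (by omega), if_neg (by omega)]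
      simp only
      omega
    rw [e] at this; exact this

theorem vTup_sing : SingTuple (vTup m n hm hn) := by
  intro c
  set c0 := c ⟨0, by omega⟩ with hc0
  set c1 := c ⟨1, by omega⟩ with hc1
  set c2 := c ⟨2, by omega⟩ with hc2
  have hsplit : ∑ i, c i • vTup m n hm hn i =
      ∑ i, c i • wTup m n hm hn i - ∑ i, c i • uTup m n hm hn i := by
    rw [← Finset.sum_sub_distrib]
    refine Finset.sum_congr rfl fun i _ => ?_
    rw [← smul_sub]; rfl
  set z : Fin n → ℂ := fun k => if (k : ℕ) = n - 3 then c0 else if (k : ℕ) = n - 2 then c1 else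
    if (k : ℕ) = n - 1 then c2 else 0 with hz
  have hMz : (∑ i, c i • vTup m n hm hn i) *ᵥ z = 0 := by
    rw [hsplit, sub_mulVec]
    funext j
    rw [Pi.sub_apply, wTup_mulVec, uTup_mulVec, Pi.zero_apply]
    have hj := j.2
    by_cases h0 : (j : ℕ) = 0
    · have e1 : fI m n hm j = ⟨2, by omega⟩ := by simp [fI, h0]
      have e2 : fK n hn j = ⟨n - 2, by omega⟩ := by simp [fK, h0]
      have e3 : fI' m n hm j = ⟨1, by omega⟩ := by simp [fI', h0]
      have e4 : fK' n hn j = ⟨n - 1, by omega⟩ := by simp [fK', h0]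
      rw [e1, e2, e3, e4, if_pos (by omega)]
      simp only [hz]
      rw [if_neg (by omega), if_pos trivial, if_neg (by omega), if_neg (by omega),
        if_pos trivial]
      ring
    by_cases h1 : (j : ℕ) = 1
    · have e1 : fI m n hm j = ⟨0, by omega⟩ := by simp [fI, h1]
      have e2 : fK n hn j = ⟨n - 1, by omega⟩ := by simp [fK, h1]
      have e3 : fI' m n hm j = ⟨2, by omega⟩ := by simp [fI', h1]
      have e4 : fK' n hn j = ⟨n - 3, by omega⟩ := by simp [fK', h1]
      rw [e1, e2, e3, e4, if_pos (by omega)]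
      simp only [hz]
      rw [if_neg (by omega), if_neg (by omega), if_pos trivial, if_pos trivial]
      ring
    by_cases h2 : (j : ℕ) = 2
    · have e1 : fI m n hm j = ⟨1, by omega⟩ := by simp [fI, h2]
      have e2 : fK n hn j = ⟨n - 3, by omega⟩ := by simp [fK, h2]
      have e3 : fI' m n hm j = ⟨0, by omega⟩ := by simp [fI', h2]
      have e4 : fK' n hn j = ⟨n - 2, by omega⟩ := by simp [fK', h2]
      rw [e1, e2, e3, e4, if_pos (by omega)]
      simp only [hz]
      rw [if_pos trivial, if_neg (by omega), if_pos trivial]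
      ring
    · rw [if_neg (by omega), sub_zero]
      have e2 : fK n hn j = ⟨n - 1 - j, by omega⟩ := by simp [fK, h0, h1, h2]
      rw [e2]
      simp only [hz]
      rw [if_neg (by omega), if_neg (by omega), if_neg (by omega), mul_zero]
  by_cases hzero : c0 = 0 ∧ c1 = 0 ∧ c2 = 0
  · apply det_eq_zero_of_row_eq_zero (⟨0, by omega⟩ : Fin n)
    intro k
    rw [Matrix.sum_apply]
    refine Finset.sum_eq_zero fun i _ => ?_
    rw [Matrix.smul_apply, smul_eq_mul]
    by_cases h : vTup m n hm hn i ⟨0, by omega⟩ k = 0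
    · rw [h, mul_zero]
    · have hci : c i = 0 := by
        rw [vTup_apply] at h
        by_cases g1 : i = fI m n hm ⟨0, by omega⟩ ∧ k = fK n hn ⟨0, by omega⟩
        · have e1 : i = ⟨2, by omega⟩ := g1.1.trans (by simp [fI])
          rw [e1]; exact hzero.2.2
        · rw [if_neg g1] at h
          by_cases g2 : ((⟨0, by omega⟩ : Fin n) : ℕ) < 3 ∧ i = fI' m n hm ⟨0, by omega⟩ ∧
              k = fK' n hn ⟨0, by omega⟩
          · have e1 : i = ⟨1, by omega⟩ := g2.2.1.trans (by simp [fI'])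
            rw [e1]; exact hzero.2.1
          · rw [if_neg g2, sub_zero] at h
            exact absurd rfl h
      rw [hci, zero_mul]
  · rw [← exists_mulVec_eq_zero_iff]
    refine ⟨z, ?_, hMz⟩
    intro h
    apply hzero
    refine ⟨?_, ?_, ?_⟩
    · have := congrFun h ⟨n - 3, by omega⟩
      simpa [hz] using this
    · have := congrFun h ⟨n - 2, by omega⟩
      simp only [hz, Pi.zero_apply] at this
      rwa [if_neg (by omega), if_pos trivial] at this
    · have := congrFun h ⟨n - 1, by omega⟩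
      simp only [hz, Pi.zero_apply] at this
      rwa [if_neg (by omega), if_neg (by omega), if_pos trivial] at this

end Pool.Agent.H44.Sing
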