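import Mathlib
import Pool.Agent.H44.Sing.Explicit

/-!
Singular matrix tuples are not the null cone of a group acting linearly.
-/

open Matrix Topology Set

namespace Pool.Agent.H44.Sing

variable {n m : ℕ}

theorem mem_closure_zero_iff (S : Set (Fin m → Fin n → Fin n → ℂ)) :
    (0 : Fin m → Fin n → Fin n → ℂ) ∈ closure S ↔
      ∀ ε : ℝ, 0 < ε → ∃ Y ∈ S, ∀ i j k, ‖Y i j k‖ < ε := by
  rw [Metric.mem_closure_iff]
  constructor
  · intro h ε hε
    obtain ⟨Y, hY, hd⟩ := h ε hε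
    refine ⟨Y, hY, fun i j k => ?_⟩
    have h1 := (dist_pi_lt_iff hε).mp ((dist_pi_lt_iff hε).mp ((dist_pi_lt_iff hε).mp hd i) j) k
    simpa [dist_zero_left] using h1
  · intro h ε hε
    obtain ⟨Y, hY, hd⟩ := h ε hε
    refine ⟨Y, hY, (dist_pi_lt_iff hε).mpr fun i => (dist_pi_lt_iff hε).mpr fun j =>
      (dist_pi_lt_iff hε).mpr fun k => ?_⟩
    simpa [dist_zero_left] using hd i j k

theorem mem_closure_zero_iff' (S : Set (Tup m n)) :
    (0 : Tup m n) ∈ closure S ↔ ∀ ε : ℝ, 0 < ε → ∃ Y ∈ S, ∀ i j k, ‖Y i j k‖ < ε :=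
  mem_closure_zero_iff S

theorem inv3_of_act (hn : 1 ≤ n) (hm : 1 ≤ m) (g : Tup m n ≃ₗ[ℂ] Tup m n) (κ : St m n)
    (hg : ∀ X, g X = acts κ X) : Inv3 κ := by
  have hinj : ∀ X : Tup m n, acts κ X = 0 → X = 0 := by
    intro X hX
    rw [← hg] at hX
    exact (LinearEquiv.map_eq_zero_iff g).mp hX
  have hact : ∀ (X : Tup m n) (i : Fin m),
      acts κ X i = ∑ i', κ.1 i i' • (κ.2.1 * X i' * κ.2.2ᵀ) := fun X i => rfl
  refine ⟨?_, ?_, ?_⟩
  · intro hdet
    obtain ⟨c, hc, hc0⟩ := exists_mulVec_eq_zero_iff.mpr hdet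
    apply hc
    have h1 : (fun i => c i • (1 : Matrix (Fin n) (Fin n) ℂ) : Tup m n) = 0 := by
      apply hinj
      funext i
      rw [hact]
      have h2 : ∀ i', κ.1 i i' • (κ.2.1 * (c i' • (1 : Matrix (Fin n) (Fin n) ℂ)) * κ.2.2ᵀ) =
          (κ.1 i i' * c i') • (κ.2.1 * κ.2.2ᵀ) := by
        intro i'
        rw [Matrix.mul_smul, Matrix.smul_mul, mul_one, smul_smul]
      simp only [h2]
      rw [← Finset.sum_smul]
      have h3 : ∑ i', κ.1 i i' * c i' = 0 := congrFun hc0 i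
      rw [h3, zero_smul]; rfl
    funext i
    have h2 := congrFun (congrFun (congrFun h1 i) ⟨0, hn⟩) ⟨0, hn⟩
    simpa using h2
  · intro hdet
    obtain ⟨v, hv, hv0⟩ := exists_mulVec_eq_zero_iff.mpr hdet
    apply hv
    have h1 : (fun _ => vecMulVec v (fun _ => 1) : Tup m n) = 0 := by
      apply hinj
      funext i
      rw [hact]
      have h2 : κ.2.1 * vecMulVec v (fun _ : Fin n => (1 : ℂ)) = 0 := by
        rw [mul_vecMulVec, hv0]
        ext a b
        simp [vecMulVec_apply]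
      simp [h2]
    funext j
    have h2 := congrFun (congrFun (congrFun h1 ⟨0, hm⟩) j) ⟨0, hn⟩
    simpa [vecMulVec_apply] using h2
  · intro hdet
    obtain ⟨v, hv, hv0⟩ := exists_mulVec_eq_zero_iff.mpr hdet
    apply hv
    have h1 : (fun _ => vecMulVec (fun _ => 1) v : Tup m n) = 0 := by
      apply hinj
      funext i
      rw [hact]
      have h2 : vecMulVec (fun _ : Fin n => (1 : ℂ)) v * κ.2.2ᵀ = 0 := by
        rw [vecMulVec_mul, vecMul_transpose, hv0]
        ext a b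
        simp [vecMulVec_apply]
      simp [h2, Matrix.mul_assoc]
    funext j
    have h2 := congrFun (congrFun (congrFun h1 ⟨0, hm⟩) ⟨0, hn⟩) j
    simpa [vecMulVec_apply] using h2

/-- a triple with the last two members exchanged -/
def swp (κ : St m n) : St m n := (κ.1, κ.2.2, κ.2.1)

theorem tr_acts (κ : St m n) (X : Tup m n) :
    tr (Fin m) (Fin n) (acts κ X) = acts (swp κ) (tr (Fin m) (Fin n) X) := tr_act _ _ _ _

/-- Let `n, m ≥ 3`.  For every group `G` and every linear action of `G` on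
the space of `m`-tuples of complex `n × n` matrices, the analytic null cone of `G` is not the
set of singular matrix tuples. -/
theorem not_nullCone {n m : ℕ} (hn : 3 ≤ n) (hm : 3 ≤ m) {G : Type*} [Group G]
    (ρ : Representation ℂ G (Fin m → Matrix (Fin n) (Fin n) ℂ)) :
    {v : Tup m n | (0 : Tup m n) ∈ closure (Set.range fun g : G => ρ g v)} ≠
      {X : Tup m n | SingTuple X} := by
  intro heq
  have : Nonempty (Fin m) := ⟨⟨0, by omega⟩⟩
  have hmem : ∀ X : Tup m n, SingTuple X ↔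
      (0 : Tup m n) ∈ closure (Set.range fun g : G => ρ g X) := by
    intro X
    have h1 : X ∈ {X : Tup m n | SingTuple X} ↔
        X ∈ {v : Tup m n | (0 : Tup m n) ∈ closure (Set.range fun g : G => ρ g v)} := by
      rw [heq]
    exact h1
  have hmulρ : ∀ (g h : G) (X : Tup m n), ρ (g * h) X = ρ g (ρ h X) := by
    intro g h X
    rw [map_mul]; rfl
  have hone : ∀ X : Tup m n, ρ 1 X = X := by
    intro X
    rw [map_one]; rfl
  -- the group preserves the singular tuples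
  have hpres : ∀ (g : G) (X : Tup m n), SingTuple X → SingTuple (ρ g X) := by
    intro g X hX
    rw [hmem] at hX ⊢
    have h1 : (Set.range fun h : G => ρ h (ρ g X)) = Set.range fun h : G => ρ h X := by
      ext Y
      constructor
      · rintro ⟨h, rfl⟩
        exact ⟨h * g, hmulρ h g X⟩
      · rintro ⟨h, rfl⟩
        refine ⟨h * g⁻¹, ?_⟩
        change ρ (h * g⁻¹) (ρ g X) = ρ h X
        rw [← hmulρ, inv_mul_cancel_right]
    rw [h1]
    exact hX
  -- structure of the group elements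
  set T := tr (Fin m) (Fin n) with hT
  have hstruct : ∀ g : G, ∃ κ : St m n, Inv3 κ ∧
      ((∀ X, ρ g X = acts κ X) ∨ (∀ X, ρ g X = acts κ (T X))) := by
    intro g
    set e : Tup m n ≃ₗ[ℂ] Tup m n := LinearEquiv.ofLinearMap (ρ g) (ρ g⁻¹)
      (LinearMap.ext fun X => by
        change ρ g (ρ g⁻¹ X) = X; rw [← hmulρ, mul_inv_cancel, hone])
      (LinearMap.ext fun X => by
        change ρ g⁻¹ (ρ g X) = X; rw [← hmulρ, inv_mul_cancel, hone]) with he
    have hge : ∀ X, e X = ρ g X := fun X => rfl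
    obtain ⟨P, Q, R, h | h⟩ := preserver (by simp; omega) e (fun X hX => hpres g X hX)
    · exact ⟨(P, Q, R), inv3_of_act (by omega) (by omega) e (P, Q, R) h, Or.inl h⟩
    · refine ⟨(P, Q, R), inv3_of_act (by omega) (by omega) (T.trans e) (P, Q, R) ?_, Or.inr h⟩
      intro X
      change e (T X) = _
      rw [h]; rfl
  set Γ : Set (St m n) := {κ | Inv3 κ ∧ ∃ g : G, ∀ X, ρ g X = acts κ X} with hΓ
  have hΓone : (1 : St m n) ∈ Γ := by
    refine ⟨⟨?_, ?_, ?_⟩, 1, fun X => ?_⟩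
    · simp
    · simp
    · simp
    · rw [hone, acts_one]
  have hΓmul : ∀ γ ∈ Γ, ∀ γ' ∈ Γ, γ * γ' ∈ Γ := by
    rintro γ ⟨h1, g, hg⟩ γ' ⟨h1', g', hg'⟩
    refine ⟨h1.mul h1', g * g', fun X => ?_⟩
    rw [hmulρ, hg', hg, acts_mul]
  have hΓdet : ∀ γ ∈ Γ, Inv3 γ := fun γ h => h.1
  -- singular tuples are contracted by `Γ`
  have hnull : ∀ X : Tup m n, SingTuple X → ∀ ε : ℝ, 0 < ε →
      ∃ γ ∈ Γ, ∀ i j k, ‖acts γ X i j k‖ < ε := by
    intro X hX
    set A : Set (Tup m n) := {Y | ∃ γ ∈ Γ, Y = acts γ X} with hA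
    set B : Set (Tup m n) := {Y | ∃ γ : St m n, Inv3 γ ∧ (∃ g : G, ∀ Z, ρ g Z = acts γ (T Z)) ∧
      Y = acts γ (T X)} with hB
    have hAcl : (0 : Tup m n) ∈ closure A := by
      have h1 : (Set.range fun g : G => ρ g X) ⊆ A ∪ B := by
        rintro Y ⟨g, rfl⟩
        obtain ⟨κ, hκ, h | h⟩ := hstruct g
        · exact Or.inl ⟨κ, ⟨hκ, g, h⟩, h X⟩
        · exact Or.inr ⟨κ, hκ, ⟨g, h⟩, h X⟩
      have h2 := closure_mono h1 ((hmem X).mp hX)
      rw [closure_union] at h2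
      rcases h2 with h2 | h2
      · exact h2
      · -- there is an element of the second type
        obtain ⟨Y₀, κ₀, hκ₀, ⟨g₀, hg₀⟩, -⟩ : B.Nonempty := by
          rw [← closure_nonempty_iff]; exact ⟨_, h2⟩
        have hcont : Continuous (ρ g₀) := LinearMap.continuous_of_finiteDimensional _
        have h3 : ρ g₀ 0 ∈ closure (ρ g₀ '' B) :=
          image_closure_subset_closure_image hcont ⟨_, h2, rfl⟩
        rw [map_zero] at h3
        refine closure_mono ?_ h3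
        rintro _ ⟨Y, ⟨γ, hγ, ⟨g, hg⟩, rfl⟩, rfl⟩
        refine ⟨κ₀ * swp γ, ⟨hκ₀.mul ⟨hγ.1, hγ.2.2, hγ.2.1⟩, g₀ * g, fun Z => ?_⟩, ?_⟩
        · rw [hmulρ, hg, hg₀, hT, tr_acts, tr_tr, acts_mul]
        · rw [hg₀, hT, tr_acts, tr_tr, acts_mul]
    intro ε hε
    obtain ⟨Y, ⟨γ, hγ, rfl⟩, hY⟩ := (mem_closure_zero_iff' A).mp hAcl ε hε
    exact ⟨γ, hγ, hY⟩
  obtain ⟨w, hw, hwε⟩ := contract hΓone hΓmul hΓdet hnull (vTup_sing hm hn)
    (vTup_supp hm hn) (fun i j k h => vTup_norm hm hn i j k h) (wTup_supp hm hn)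
    (wTup_norm hm hn) (wTup_not_sing hm hn)
  apply hw
  rw [hmem, mem_closure_zero_iff']
  intro ε hε
  obtain ⟨γ, ⟨-, g, hg⟩, hγ⟩ := hwε ε hε
  exact ⟨ρ g w, ⟨g, rfl⟩, fun i j k => by rw [hg]; exact hγ i j k⟩

end Pool.Agent.H44.Sing
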